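import Mathlib

set_option autoImplicit false

/-! A game between a describer and a pair of optimal machines, in which the describer forces
the self-delimiting complexity of some string to drop too often. -/

namespace Pool.Agent.Helper444.CKGame

section PartA

open InformationTheory

/-- value of a bit string -/
def num (q : List Bool) : ℕ := q.foldl (fun acc b => 2 * acc + (if b then 1 else 0)) 0

theorem foldl_num (q : List Bool) (a : ℕ) :
    q.foldl (fun acc b => 2 * acc + (if b then 1 else 0)) a = 2 ^ q.length * a + num q := by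
  induction q generalizing a with
  | nil => simp [num]
  | cons b q ih =>
    unfold num
    simp only [List.foldl_cons, List.length_cons]
    rw [ih, ih (2 * 0 + _)]
    ring

theorem num_nil : num [] = 0 := rfl

theorem num_cons (b : Bool) (q : List Bool) :
    num (b :: q) = 2 ^ q.length * (if b then 1 else 0) + num q := by
  conv_lhs => unfold num
  simp only [List.foldl_cons]
  rw [foldl_num]
  simp

theorem num_append (q t : List Bool) : num (q ++ t) = 2 ^ t.length * num q + num t := by
  conv_lhs => unfold num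
  rw [List.foldl_append, foldl_num]
  rfl

theorem num_lt (q : List Bool) : num q < 2 ^ q.length := by
  induction q with
  | nil => simp [num]
  | cons b q ih =>
    rw [num_cons, List.length_cons, pow_succ]
    split_ifs <;> omega

theorem num_inj {q t : List Bool} (hl : q.length = t.length) (h : num q = num t) : q = t := by
  induction q generalizing t with
  | nil => simp at hl; exact (List.length_eq_zero_iff.mp hl.symm).symm
  | cons b q ih =>
    cases t with
    | nil => simp at hl
    | cons c t =>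
      simp only [List.length_cons, add_left_inj] at hl
      rw [num_cons, num_cons, hl] at h
      have h1 := num_lt q
      have h2 := num_lt t
      rw [hl] at h1
      have hb : b = c := by
        cases b <;> cases c <;> simp at h ⊢ <;> omega
      subst hb
      rw [ih hl (by omega)]

theorem exists_num {m N : ℕ} (h : N < 2 ^ m) : ∃ q : List Bool, q.length = m ∧ num q = N := by
  induction m generalizing N with
  | zero => exact ⟨[], rfl, by simp at h; simp [num, h]⟩
  | succ m ih =>
    obtain ⟨q, hq, hn⟩ := ih (N := N % 2 ^ m) (Nat.mod_lt _ (by positivity))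
    have h1 : N / 2 ^ m < 2 := by
      rw [Nat.div_lt_iff_lt_mul (by positivity)]; rw [pow_succ] at h; omega
    have h2 := Nat.div_add_mod N (2 ^ m)
    refine ⟨decide (N / 2 ^ m = 1) :: q, by simp [hq], ?_⟩
    rw [num_cons, hn, hq]
    have h4 : N / 2 ^ m = 0 ∨ N / 2 ^ m = 1 := by
      generalize N / 2 ^ m = z at h1
      omega
    rcases h4 with h3 | h3
    · rw [h3] at h2 ⊢; simp at h2 ⊢; exact h2
    · rw [h3] at h2 ⊢; simp at h2 ⊢; omega

/-- number of strings of bounded length -/
theorem card_short (P : Finset (List Bool)) (m : ℕ) (h : ∀ p ∈ P, p.length ≤ m) :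
    P.card < 2 ^ (m + 1) := by
  have h1 : P.card ≤ (Finset.Ico 1 (2 ^ (m + 1))).card := by
    refine Finset.card_le_card_of_injOn (fun p => num (true :: p)) ?_ ?_
    · intro p hp
      have hp' : p ∈ P := hp
      have h2 := num_lt (true :: p)
      rw [Finset.mem_coe, Finset.mem_Ico]
      refine ⟨?_, lt_of_lt_of_le h2 ?_⟩
      · show 1 ≤ num (true :: p)
        rw [num_cons]
        have : 0 < 2 ^ p.length := by positivity
        simp; omega
      · refine Nat.pow_le_pow_right (by norm_num) ?_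
        simp [h p hp']
    · intro p hp q hq hpq
      have hpq' : num (true :: p) = num (true :: q) := hpq
      have a1 := num_cons true p
      have a2 := num_cons true q
      simp only [if_true, mul_one] at a1 a2
      have b1 := num_lt p
      have b2 := num_lt q
      have hl : p.length = q.length := by
        rcases lt_trichotomy p.length q.length with hlt | heq | hgt
        · exfalso
          have : 2 ^ (p.length + 1) ≤ 2 ^ q.length := Nat.pow_le_pow_right (by norm_num) hlt
          rw [pow_succ] at this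
          omega
        · exact heq
        · exfalso
          have : 2 ^ (q.length + 1) ≤ 2 ^ p.length := Nat.pow_le_pow_right (by norm_num) hgt
          rw [pow_succ] at this
          omega
      exact num_inj hl (by rw [hl] at a1; omega)
  have h2 : 0 < 2 ^ (m + 1) := by positivity
  rw [Nat.card_Ico] at h1
  omega

/-- Kraft inequality for self-delimiting sets -/
theorem kraft (Q : Finset (List Bool)) (h : ∀ p ∈ Q, ∀ q ∈ Q, p <+: q → p = q) :
    ∑ q ∈ Q, (1 / 2 : ℝ) ^ q.length ≤ 1 := by
  by_cases h0 : [] ∈ Q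
  · have : Q ⊆ {[]} := by
      intro q hq
      rw [Finset.mem_singleton]
      exact (h [] h0 q hq (List.nil_prefix)).symm
    calc ∑ q ∈ Q, (1 / 2 : ℝ) ^ q.length ≤ ∑ q ∈ ({[]} : Finset (List Bool)), (1 / 2 : ℝ) ^ q.length :=
          Finset.sum_le_sum_of_subset_of_nonneg this (fun _ _ _ => by positivity)
      _ = 1 := by simp
  · have hu : UniquelyDecodable (Q : Set (List Bool)) := by
      intro L₁
      induction L₁ with
      | nil =>
        intro L₂ _ h2 he
        cases L₂ with
        | nil => rfl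
        | cons w L =>
          exfalso
          simp only [List.flatten_nil, List.flatten_cons] at he
          have : w = [] := (List.append_eq_nil_iff.mp he.symm).1
          exact h0 (by rw [← this]; exact h2 w (by simp))
      | cons w L ih =>
        intro L₂ h1 h2 he
        cases L₂ with
        | nil =>
          exfalso
          simp only [List.flatten_nil, List.flatten_cons] at he
          have : w = [] := (List.append_eq_nil_iff.mp he).1
          exact h0 (by rw [← this]; exact h1 w (by simp))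
        | cons w' L' =>
          simp only [List.flatten_cons] at he
          have hw : w ∈ Q := h1 w (by simp)
          have hw' : w' ∈ Q := h2 w' (by simp)
          have hww : w = w' := by
            have p1 : w <+: w ++ L.flatten := List.prefix_append _ _
            have p2 : w' <+: w ++ L.flatten := by rw [he]; exact List.prefix_append _ _
            rcases List.prefix_or_prefix_of_prefix p1 p2 with h3 | h3
            · exact h w hw w' hw' h3
            · exact (h w' hw' w hw h3).symm
          subst hww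
          rw [List.append_cancel_left_eq] at he
          rw [ih L' (fun x hx => h1 x (by simp [hx])) (fun x hx => h2 x (by simp [hx])) he]
    have := kraft_mcmillan_inequality hu
    simpa using this

end PartA

section PartB

/-! Parameters of the game, all functions of `e`. -/

def pE (e : ℕ) : ℕ := 2 * e + 1
def pD (e : ℕ) : ℕ := pE e + 5
def pR (e : ℕ) : ℕ := pD e * e
def pg (e : ℕ) : ℕ := pE e + pR e + 3
def ph (e : ℕ) : ℕ := pg e + 1
def pL (e i : ℕ) : ℕ := ph e * (pR e + 1 - i)
def pS (e : ℕ) : ℕ := ph e * (pR e + 1)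
def pv (e n : ℕ) : ℕ := (n + 1) * pS e
def pB (e : ℕ) : ℕ := 2 ^ (pS e) + 4
def prho (e i : ℕ) : ℕ := pL e i - pE e
def pth (e n : ℕ) : ℕ := 2 ^ (pv e n - (pR e + 1))
def pk (e n j : ℕ) : ℕ := pv e n + (pB e - j) + pE e

theorem ph_le_pL {e i : ℕ} (hi : i ≤ pR e) : ph e ≤ pL e i := by
  unfold pL
  have : 1 ≤ pR e + 1 - i := by omega
  calc ph e = ph e * 1 := by ring
    _ ≤ ph e * (pR e + 1 - i) := Nat.mul_le_mul_left _ this

theorem pE_lt_ph (e : ℕ) : pE e + pR e + 3 < ph e := by unfold ph pg; omega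

theorem pL_zero (e : ℕ) : pL e 0 = pS e := rfl

theorem pL_succ {e i : ℕ} (hi : i < pR e) : pL e (i + 1) + ph e = pL e i := by
  unfold pL
  have : pR e + 1 - i = (pR e + 1 - (i + 1)) + 1 := by omega
  rw [this]; ring

theorem pL_anti {e i i' : ℕ} (h : i ≤ i') : pL e i' ≤ pL e i := by
  unfold pL
  exact Nat.mul_le_mul_left _ (by omega)

theorem prho_add {e i : ℕ} (hi : i ≤ pR e) : prho e i + pE e = pL e i := by
  have h1 := ph_le_pL hi
  have h2 := pE_lt_ph e
  unfold prho; omega

theorem prho_pos {e i : ℕ} (hi : i ≤ pR e) : 1 ≤ prho e i := by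
  have h1 := ph_le_pL hi
  have h2 := pE_lt_ph e
  unfold prho; omega

theorem prho_lt {e i : ℕ} (hi : i ≤ pR e) : prho e i < pS e := by
  have h1 := prho_add hi
  have h2 : pL e i ≤ pL e 0 := pL_anti (Nat.zero_le _)
  rw [pL_zero] at h2
  have : 1 ≤ pE e := by unfold pE; omega
  omega

theorem pR_lt_pv (e n : ℕ) : pR e + 1 ≤ pv e n := by
  unfold pv pS
  have h : 1 ≤ ph e := by have := pE_lt_ph e; omega
  calc pR e + 1 = 1 * (1 * (pR e + 1)) := by ring
    _ ≤ (n + 1) * (ph e * (pR e + 1)) :=
      Nat.mul_le_mul (by omega) (Nat.mul_le_mul_right _ h)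

theorem pS_pos (e : ℕ) : 0 < pS e := by
  have := prho_lt (e := e) (i := 0) (Nat.zero_le _)
  omega

theorem pth_mul (e n : ℕ) : pth e n * 2 ^ (pR e + 1) = 2 ^ pv e n := by
  unfold pth
  rw [← pow_add]
  congr 1
  have := pR_lt_pv e n
  omega

theorem pth_pos (e n : ℕ) : 0 < pth e n := by unfold pth; positivity

/-- the lengths of programs determine the game and the round -/
theorem len_inj {e n i n' i' : ℕ} (hi : i ≤ pR e) (hi' : i' ≤ pR e)
    (h : pv e n + prho e i = pv e n' + prho e i') : n = n' ∧ i = i' := by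
  have h1 := prho_lt hi
  have h2 := prho_lt hi'
  unfold pv at h
  have hn : n = n' := by
    rcases lt_trichotomy n n' with hlt | heq | hgt
    · exfalso
      have : (n + 1 + 1) * pS e ≤ (n' + 1) * pS e := Nat.mul_le_mul_right _ (by omega)
      have e1 : (n + 1 + 1) * pS e = (n + 1) * pS e + pS e := by ring
      omega
    · exact heq
    · exfalso
      have : (n' + 1 + 1) * pS e ≤ (n + 1) * pS e := Nat.mul_le_mul_right _ (by omega)
      have e1 : (n' + 1 + 1) * pS e = (n' + 1) * pS e + pS e := by ring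
      omega
  refine ⟨hn, ?_⟩
  subst hn
  have h3 : pL e i = pL e i' := by
    have a1 := prho_add hi
    have a2 := prho_add hi'
    omega
  unfold pL at h3
  have hp : 0 < ph e := by have := pE_lt_ph e; omega
  have h4 := Nat.eq_of_mul_eq_mul_left hp h3
  omega

/-- the strings handled by the game -/
def X (n j a : ℕ) : List Bool :=
  (List.range (Nat.pair n (Nat.pair j a))).map (fun _ => true)

theorem X_inj {n j a n' j' a' : ℕ} (h : X n j a = X n' j' a') : n = n' ∧ j = j' ∧ a = a' := by
  have h1 := congrArg List.length h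
  simp only [X, List.length_map, List.length_range] at h1
  obtain ⟨h2, h3⟩ := Nat.pair_eq_pair.mp h1
  obtain ⟨h4, h5⟩ := Nat.pair_eq_pair.mp h3
  exact ⟨h2, h4, h5⟩

/-- states: game number, item number, round, position in the unit interval -/
abbrev St := ℕ × ℕ × ℕ × ℕ

def lowNext (st : St) : St := (st.1, st.2.1 + 1, 0, st.2.2.2 + 2 ^ (st.2.1 + 1))

def highNext (e : ℕ) (st : St) : St :=
  if st.2.2.1 < pR e then (st.1, st.2.1, st.2.2.1 + 1, st.2.2.2)
  else (st.1 + 1, 0, 0, st.2.2.2 + 2 ^ (st.2.1 + 1))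

section
variable (U V : List Bool →. List Bool) (Ψ : (List Bool × ℕ) × ℕ → Prop)

/-- many strings of the item have short programs -/
def LowT (e n j i : ℕ) : Prop :=
  ∃ A : Finset ℕ, A ⊆ Finset.range (2 ^ pv e n) ∧ pth e n ≤ A.card ∧
    ∀ a ∈ A, ∃ p : List Bool, X n j a ∈ U p ∧ p.length ≤ pv e n + (pL e i - pg e)

/-- most strings of the item have witnesses with a program whose length is in the window -/
def HighT (e n j i : ℕ) : Prop :=
  ∃ A : Finset ℕ, A ⊆ Finset.range (2 ^ pv e n) ∧ 2 ^ pv e n < A.card + pth e n ∧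
    ∀ a ∈ A, ∃ p q : List Bool, X n j a ∈ U p ∧ X n j a ∈ V q ∧
      Ψ ((X n j a, q.length), p.length) ∧ q.length ≤ pk e n j ∧
      pv e n + (pL e i - pg e) < p.length ∧ p.length ≤ pv e n + pL e i

def Tr (e : ℕ) (st st' : St) : Prop :=
  (LowT U e st.1 st.2.1 st.2.2.1 ∧ st' = lowNext st) ∨
  (HighT U V Ψ e st.1 st.2.1 st.2.2.1 ∧ st' = highNext e st)

theorem LowT.mono {U : List Bool →. List Bool} {e n j i i' : ℕ} (h : i ≤ i')
    (hl : LowT U e n j i') : LowT U e n j i := by
  obtain ⟨A, h1, h2, h3⟩ := hl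
  refine ⟨A, h1, h2, ?_⟩
  intro a ha
  obtain ⟨p, hp, hpl⟩ := h3 a ha
  refine ⟨p, hp, hpl.trans ?_⟩
  have := pL_anti (e := e) h
  omega

/-- counting bound for low items -/
theorem low_count {U : List Bool →. List Bool} {e n i : ℕ} (hi : i ≤ pR e) (J : Finset ℕ)
    (h : ∀ j ∈ J, LowT U e n j i) : J.card < 2 ^ prho e i := by
  classical
  choose! A hA1 hA2 hA3 using h
  -- programs
  have hex : ∀ x : (_ : ℕ) × ℕ, x ∈ J.sigma A → ∃ p : List Bool, X n x.1 x.2 ∈ U p ∧
      p.length ≤ pv e n + (pL e i - pg e) := by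
    rintro ⟨j, a⟩ hx
    rw [Finset.mem_sigma] at hx
    exact hA3 j hx.1 a hx.2
  choose! P hP1 hP2 using hex
  have hinj : Set.InjOn P (J.sigma A : Finset ((_ : ℕ) × ℕ)) := by
    intro x hx y hy hxy
    have e1 := hP1 x hx
    have e2 := hP1 y hy
    rw [hxy] at e1
    have e3 := Part.mem_unique e1 e2
    obtain ⟨_, h2, h3⟩ := X_inj e3
    exact Sigma.ext h2 (heq_of_eq h3)
  have hc1 : ((J.sigma A).image P).card = (J.sigma A).card := Finset.card_image_of_injOn hinj
  have hc2 := card_short ((J.sigma A).image P) (pv e n + (pL e i - pg e)) (by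
    intro p hp
    obtain ⟨x, hx, rfl⟩ := Finset.mem_image.mp hp
    exact hP2 x hx)
  have hc3 : J.card * pth e n ≤ (J.sigma A).card := by
    rw [Finset.card_sigma]
    calc J.card * pth e n = ∑ _j ∈ J, pth e n := by rw [Finset.sum_const, smul_eq_mul]
      _ ≤ ∑ j ∈ J, (A j).card := Finset.sum_le_sum (fun j hj => hA2 j hj)
  rw [hc1] at hc2
  have h1 : J.card * pth e n < 2 ^ (pv e n + (pL e i - pg e) + 1) := lt_of_le_of_lt hc3 hc2
  have h2 : 2 ^ (pv e n + (pL e i - pg e) + 1) ≤ 2 ^ prho e i * pth e n := by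
    rw [pth, ← pow_add]
    refine Nat.pow_le_pow_right (by norm_num) ?_
    have a1 := prho_add hi
    have a2 := pR_lt_pv e n
    have a3 := ph_le_pL hi
    have a4 : pg e + 1 = ph e := rfl
    have a5 : pg e = pE e + pR e + 3 := rfl
    omega
  exact lt_of_mul_lt_mul_right (lt_of_lt_of_le h1 h2) (Nat.zero_le _)

end

end PartB

section PartC

variable {U V : List Bool →. List Bool} {Ψ : (List Bool × ℕ) × ℕ → Prop}

theorem succ_le_two_pow (R : ℕ) : R + 1 ≤ 2 ^ R := by
  induction R with
  | zero => norm_num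
  | succ n ih => rw [pow_succ]; omega

/-- the strings surviving all rounds -/
theorem high_inter {e n j : ℕ} (h : ∀ i ≤ pR e, HighT U V Ψ e n j i) :
    ∃ A : Finset ℕ, A ⊆ Finset.range (2 ^ pv e n) ∧ 2 ^ pv e n ≤ 2 * A.card ∧
      ∀ a ∈ A, ∀ i ≤ pR e, ∃ p q : List Bool, X n j a ∈ U p ∧ X n j a ∈ V q ∧
      Ψ ((X n j a, q.length), p.length) ∧ q.length ≤ pk e n j ∧
      pv e n + (pL e i - pg e) < p.length ∧ p.length ≤ pv e n + pL e i := by
  classical
  choose! A hA1 hA2 hA3 using h
  obtain ⟨G, hG⟩ : ∃ G : ℕ → Prop, ∀ a, G a ↔ ∀ i ≤ pR e, a ∈ A i := ⟨_, fun _ => Iff.rfl⟩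
  refine ⟨(Finset.range (2 ^ pv e n)).filter G, Finset.filter_subset _ _, ?_, ?_⟩
  · have hcompl : (Finset.range (2 ^ pv e n)).filter (fun a => ¬ G a) ⊆
        (Finset.range (pR e + 1)).biUnion (fun i => Finset.range (2 ^ pv e n) \ A i) := by
      intro a ha
      rw [Finset.mem_filter, hG] at ha
      obtain ⟨h1, h2⟩ := ha
      push Not at h2
      obtain ⟨i, hi, hai⟩ := h2
      rw [Finset.mem_biUnion]
      exact ⟨i, Finset.mem_range.mpr (by omega), Finset.mem_sdiff.mpr ⟨h1, hai⟩⟩
    have h1 := Finset.card_le_card hcompl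
    have h2 : ((Finset.range (pR e + 1)).biUnion
        (fun i => Finset.range (2 ^ pv e n) \ A i)).card ≤ (pR e + 1) * pth e n := by
      refine (Finset.card_biUnion_le).trans ?_
      calc ∑ i ∈ Finset.range (pR e + 1), (Finset.range (2 ^ pv e n) \ A i).card
          ≤ ∑ _i ∈ Finset.range (pR e + 1), pth e n := by
            refine Finset.sum_le_sum ?_
            intro i hi
            rw [Finset.mem_range] at hi
            have hi' : i ≤ pR e := by omega
            rw [Finset.card_sdiff_of_subset (hA1 i hi'), Finset.card_range]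
            have := hA2 i hi'
            omega
        _ = (pR e + 1) * pth e n := by rw [Finset.sum_const, smul_eq_mul, Finset.card_range]
    have h3 := Finset.card_filter_add_card_filter_not (s := Finset.range (2 ^ pv e n)) G
    rw [Finset.card_range] at h3
    have h4 : 2 * ((pR e + 1) * pth e n) ≤ 2 ^ pv e n := by
      rw [← pth_mul e n, pow_succ]
      have := succ_le_two_pow (pR e)
      calc 2 * ((pR e + 1) * pth e n) ≤ 2 * (2 ^ pR e * pth e n) :=
            Nat.mul_le_mul_left _ (Nat.mul_le_mul_right _ this)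
        _ = pth e n * (2 ^ pR e * 2) := by ring
    omega
  · intro a ha i hi
    rw [Finset.mem_filter, hG] at ha
    exact hA3 i hi a (ha.2 i hi)

/-- a surviving string has a short self-delimiting program -/
theorem short_prog {e m n j a : ℕ} (hme : m ≤ e)
    (hm : ∀ x k, ∀ F : Finset ℕ, (∀ y ∈ F, Ψ ((x, k), y)) → F.card ≤ m)
    (h : ∀ i ≤ pR e, ∃ p q : List Bool, X n j a ∈ U p ∧ X n j a ∈ V q ∧
      Ψ ((X n j a, q.length), p.length) ∧ q.length ≤ pk e n j ∧
      pv e n + (pL e i - pg e) < p.length ∧ p.length ≤ pv e n + pL e i) :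
    ∃ q : List Bool, X n j a ∈ V q ∧ q.length + pD e ≤ pk e n j := by
  classical
  by_contra hcon
  push Not at hcon
  choose! p q h1 h2 h3 h4 h5 h6 using h
  -- lengths of p strictly decrease
  have hstep : ∀ i, i < pR e → (p (i + 1)).length < (p i).length := by
    intro i hi
    have a1 := h5 i hi.le
    have a2 := h6 (i + 1) hi
    have a3 := pL_succ hi
    have a4 : ph e = pg e + 1 := rfl
    omega
  have hanti : ∀ i i', i < i' → i' ≤ pR e → (p i').length < (p i).length := by
    intro i i' hii hi'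
    induction i' with
    | zero => omega
    | succ k ih =>
      rcases Nat.lt_or_ge i k with hlt | hge
      · exact lt_trans (hstep k (by omega)) (ih hlt (by omega))
      · have : i = k := by omega
        subst this
        exact hstep i (by omega)
  have hinj : Set.InjOn (fun i => (p i).length) (Finset.range (pR e + 1) : Finset ℕ) := by
    intro i hi i' hi' hii
    rw [Finset.mem_coe, Finset.mem_range] at hi hi'
    by_contra hne
    rcases lt_or_gt_of_ne hne with hlt | hgt
    · have := hanti i i' hlt (by omega)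
      simp only at hii
      omega
    · have := hanti i' i hgt (by omega)
      simp only at hii
      omega
  have hcard := Finset.card_le_mul_card_image (f := fun i => (q i).length)
    (Finset.range (pR e + 1)) m (by
      intro k hk
      have hsub := hm (X n j a) k (((Finset.range (pR e + 1)).filter
        (fun i => (q i).length = k)).image (fun i => (p i).length)) (by
          intro y hy
          obtain ⟨i, hi, rfl⟩ := Finset.mem_image.mp hy
          rw [Finset.mem_filter, Finset.mem_range] at hi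
          have := h3 i (by omega)
          rw [hi.2] at this
          exact this)
      rw [Finset.card_image_of_injOn (hinj.mono (by
        intro i hi
        exact (Finset.mem_filter.mp hi).1))] at hsub
      exact hsub)
  have himg : ((Finset.range (pR e + 1)).image (fun i => (q i).length)).card ≤ pD e := by
    have : (Finset.range (pR e + 1)).image (fun i => (q i).length) ⊆
        Finset.Ico (pk e n j + 1 - pD e) (pk e n j + 1) := by
      intro k hk
      obtain ⟨i, hi, rfl⟩ := Finset.mem_image.mp hk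
      rw [Finset.mem_range] at hi
      have a1 := hcon (q i) (h2 i (by omega))
      have a2 := h4 i (by omega)
      rw [Finset.mem_Ico]
      omega
    have hc := Finset.card_le_card this
    rw [Nat.card_Ico] at hc
    omega
  rw [Finset.card_range] at hcard
  have : m * ((Finset.range (pR e + 1)).image (fun i => (q i).length)).card ≤ pR e := by
    calc m * ((Finset.range (pR e + 1)).image (fun i => (q i).length)).card
        ≤ e * pD e := Nat.mul_le_mul hme himg
      _ = pR e := by unfold pR; ring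
  omega

/-- total weight of the completed games -/
theorem kraft_bound {e m n : ℕ} (hme : m ≤ e)
    (hm : ∀ x k, ∀ F : Finset ℕ, (∀ y ∈ F, Ψ ((x, k), y)) → F.card ≤ m)
    (hV : ∀ p q : List Bool, (V p).Dom → (V q).Dom → p <+: q → p = q)
    (w : ℕ → ℕ) (hw : ∀ n' < n, w n' ≤ 2 ^ pS e ∧ ∀ i ≤ pR e, HighT U V Ψ e n' (w n') i) :
    16 * ∑ n' ∈ Finset.range n, 2 ^ w n' ≤ 2 ^ pB e := by
  classical
  have hA : ∀ n' < n, ∃ A : Finset ℕ, A ⊆ Finset.range (2 ^ pv e n') ∧
      2 ^ pv e n' ≤ 2 * A.card ∧ ∀ a ∈ A, ∃ q : List Bool, X n' (w n') a ∈ V q ∧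
        q.length + pD e ≤ pk e n' (w n') := by
    intro n' hn'
    obtain ⟨A, h1, h2, h3⟩ := high_inter (hw n' hn').2
    exact ⟨A, h1, h2, fun a ha => short_prog hme hm (h3 a ha)⟩
  choose! A hA1 hA2 hA3 using hA
  have hex : ∀ x : (_ : ℕ) × ℕ, x ∈ (Finset.range n).sigma A → ∃ q : List Bool,
      X x.1 (w x.1) x.2 ∈ V q ∧ q.length + pD e ≤ pk e x.1 (w x.1) := by
    rintro ⟨n', a⟩ hx
    rw [Finset.mem_sigma, Finset.mem_range] at hx
    exact hA3 n' hx.1 a hx.2
  choose! Q hQ1 hQ2 using hex
  have hinj : Set.InjOn Q ((Finset.range n).sigma A : Finset ((_ : ℕ) × ℕ)) := by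
    intro x hx y hy hxy
    have e1 := hQ1 x hx
    have e2 := hQ1 y hy
    rw [hxy] at e1
    have e3 := Part.mem_unique e1 e2
    obtain ⟨h2, _, h3⟩ := X_inj e3
    exact Sigma.ext h2 (heq_of_eq h3)
  have hk := kraft (((Finset.range n).sigma A).image Q) (by
    intro p hp q hq hpq
    obtain ⟨x, hx, rfl⟩ := Finset.mem_image.mp hp
    obtain ⟨y, hy, rfl⟩ := Finset.mem_image.mp hq
    exact hV _ _ (Part.dom_iff_mem.mpr ⟨_, hQ1 x hx⟩) (Part.dom_iff_mem.mpr ⟨_, hQ1 y hy⟩) hpq)
  rw [Finset.sum_image hinj, Finset.sum_sigma] at hk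
  have hlow : ∀ n' ∈ Finset.range n, (16 : ℝ) * 2 ^ w n' / 2 ^ pB e ≤
      ∑ a ∈ A n', (1 / 2 : ℝ) ^ (Q ⟨n', a⟩).length := by
    intro n' hn'
    have hn := Finset.mem_range.mp hn'
    have hwB : w n' + 4 ≤ pB e := by
      have := (hw n' hn).1
      unfold pB; omega
    have hpos : 1 ≤ pv e n' := by have := pR_lt_pv e n'; omega
    obtain ⟨Y, hY⟩ : ∃ Y, pk e n' (w n') = Y + pD e := by
      refine ⟨pv e n' + (pB e - w n') - 5, ?_⟩
      unfold pk pD
      omega
    have hY2 : Y + 5 + w n' = pv e n' + pB e := by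
      unfold pk pD at hY
      omega
    have hterm : ∀ a ∈ A n', (1 / 2 : ℝ) ^ Y ≤ (1 / 2 : ℝ) ^ (Q ⟨n', a⟩).length := by
      intro a ha
      have := hQ2 ⟨n', a⟩ (Finset.mem_sigma.mpr ⟨hn', ha⟩)
      simp only at this
      exact pow_le_pow_of_le_one (by norm_num) (by norm_num) (by omega)
    calc (16 : ℝ) * 2 ^ w n' / 2 ^ pB e ≤ (A n').card * (1 / 2 : ℝ) ^ Y := by
          have hc : (2 : ℝ) ^ pv e n' ≤ 2 * (A n').card := by exact_mod_cast hA2 n' hn
          have hpw : (2 : ℝ) ^ Y * 32 * 2 ^ w n' = 2 ^ pv e n' * 2 ^ pB e := by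
            rw [← pow_add, ← hY2, pow_add, pow_add]; norm_num
          rw [one_div, inv_pow, div_le_iff₀ (by positivity), mul_assoc, ← div_eq_inv_mul,
            ← mul_div_assoc, le_div_iff₀ (by positivity)]
          have hB : (0 : ℝ) < 2 ^ pB e := by positivity
          nlinarith
      _ = ∑ _a ∈ A n', (1 / 2 : ℝ) ^ Y := by rw [Finset.sum_const, nsmul_eq_mul]
      _ ≤ _ := Finset.sum_le_sum hterm
  have hfin : ∑ n' ∈ Finset.range n, (16 : ℝ) * 2 ^ w n' / 2 ^ pB e ≤ 1 :=
    (Finset.sum_le_sum hlow).trans hk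
  rw [← Finset.sum_div, ← Finset.mul_sum, div_le_one (by positivity)] at hfin
  exact_mod_cast hfin

/-- invariant of the game -/
def Inv (U V : List Bool →. List Bool) (Ψ : (List Bool × ℕ) × ℕ → Prop) (e : ℕ) (st : St) : Prop :=
  st.2.2.1 ≤ pR e ∧ (∀ j' < st.2.1, LowT U e st.1 j' 0) ∧
  (∀ i' < st.2.2.1, HighT U V Ψ e st.1 st.2.1 i') ∧
  ∃ w : ℕ → ℕ, (∀ n' < st.1, w n' ≤ 2 ^ pS e ∧ ∀ i ≤ pR e, HighT U V Ψ e n' (w n') i) ∧
    st.2.2.2 + 2 ≤ 4 * ∑ n' ∈ Finset.range st.1, 2 ^ w n' + 2 * 2 ^ st.2.1

theorem Inv.j_le {e : ℕ} {st : St} (h : Inv U V Ψ e st) : st.2.1 ≤ 2 ^ pS e := by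
  have h1 := low_count (U := U) (e := e) (n := st.1) (i := 0) (Nat.zero_le _)
    (Finset.range st.2.1) (fun j hj => h.2.1 j (Finset.mem_range.mp hj))
  rw [Finset.card_range] at h1
  have h2 := prho_lt (e := e) (i := 0) (Nat.zero_le _)
  exact h1.le.trans (Nat.pow_le_pow_right (by norm_num) h2.le)

theorem Inv.init (e : ℕ) : Inv U V Ψ e (0, 0, 0, 0) := by
  refine ⟨Nat.zero_le _, fun j' hj => absurd hj (Nat.not_lt_zero _),
    fun j' hj => absurd hj (Nat.not_lt_zero _), fun _ => 0,
    fun j' hj => absurd hj (Nat.not_lt_zero _), ?_⟩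
  simp

theorem Inv.step {e : ℕ} {st st' : St} (h : Inv U V Ψ e st) (ht : Tr U V Ψ e st st') :
    Inv U V Ψ e st' := by
  classical
  have hj := h.j_le
  obtain ⟨n, j, i, pos⟩ := st
  obtain ⟨h1, h2, h3, w, h4, h5⟩ := h
  simp only at h1 h2 h3 h4 h5 hj
  rcases ht with ⟨hl, rfl⟩ | ⟨hh, rfl⟩
  · simp only at hl
    refine ⟨Nat.zero_le _, ?_, ?_, w, h4, ?_⟩
    · intro j' hj'
      simp only [lowNext] at hj' ⊢
      rcases Nat.lt_or_ge j' j with hlt | hge
      · exact h2 j' hlt
      · have : j' = j := by omega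
        subst this
        exact hl.mono (Nat.zero_le _)
    · intro i' hi'
      simp only [lowNext] at hi'
      omega
    · simp only [lowNext]
      have : 2 ^ (j + 1) = 2 * 2 ^ j := by ring
      omega
  · simp only at hh
    unfold highNext
    simp only
    split_ifs with hi
    · refine ⟨hi, h2, ?_, w, h4, h5⟩
      intro i' hi'
      simp only at hi' ⊢
      rcases Nat.lt_or_ge i' i with hlt | hge
      · exact h3 i' hlt
      · have : i' = i := by omega
        subst this
        exact hh
    · have hiR : i = pR e := by omega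
      subst hiR
      refine ⟨Nat.zero_le _, fun j' hj => absurd hj (Nat.not_lt_zero _),
        fun j' hj => absurd hj (Nat.not_lt_zero _), Function.update w n j, ?_, ?_⟩
      · intro n' hn'
        simp only at hn'
        rcases Nat.lt_or_ge n' n with hlt | hge
        · rw [Function.update_of_ne (by omega)]
          exact h4 n' hlt
        · have : n' = n := by omega
          subst this
          rw [Function.update_self]
          refine ⟨hj, ?_⟩
          intro i' hi'
          rcases Nat.lt_or_ge i' (pR e) with hlt | hge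
          · exact h3 i' hlt
          · have : i' = pR e := by omega
            subst this
            exact hh
      · simp only
        rw [Finset.sum_range_succ, Function.update_self]
        have : ∑ n' ∈ Finset.range n, 2 ^ Function.update w n j n' =
            ∑ n' ∈ Finset.range n, 2 ^ w n' := by
          refine Finset.sum_congr rfl ?_
          intro n' hn'
          rw [Finset.mem_range] at hn'
          rw [Function.update_of_ne (by omega)]
        rw [this]
        have : 2 ^ (j + 1) = 2 * 2 ^ j := by ring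
        omega

theorem Inv.bounds {e m : ℕ} {st : St} (h : Inv U V Ψ e st) (hme : m ≤ e)
    (hm : ∀ x k, ∀ F : Finset ℕ, (∀ y ∈ F, Ψ ((x, k), y)) → F.card ≤ m)
    (hV : ∀ p q : List Bool, (V p).Dom → (V q).Dom → p <+: q → p = q) :
    st.1 ≤ 2 ^ pB e ∧ st.2.2.2 + 2 ^ (st.2.1 + 1) ≤ 2 ^ pB e := by
  have hj := h.j_le
  obtain ⟨h1, h2, h3, w, h4, h5⟩ := h
  have hk := kraft_bound hme hm hV w h4
  have hn : st.1 ≤ ∑ n' ∈ Finset.range st.1, 2 ^ w n' := by
    calc st.1 = ∑ _n' ∈ Finset.range st.1, 1 := by simp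
      _ ≤ _ := Finset.sum_le_sum (fun _ _ => Nat.one_le_two_pow)
  refine ⟨by omega, ?_⟩
  have hB : 2 ^ pB e = 2 ^ (2 ^ pS e) * 16 := by unfold pB; rw [pow_add]; norm_num
  have hj2 : 2 ^ st.2.1 ≤ 2 ^ (2 ^ pS e) := Nat.pow_le_pow_right (by norm_num) hj
  have : 2 ^ (st.2.1 + 1) = 2 * 2 ^ st.2.1 := by ring
  omega

end PartC

section PartD

/-! ### A generic run of a state machine with history -/

def init : St := (0, 0, 0, 0)

def runStep (chk : ℕ → St → Option St) (s : ℕ) (r : St × List St) : St × List St :=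
  Option.casesOn (motive := fun _ => St × List St) (chk s r.1) r (fun st' => (st', r.2 ++ [st']))

def runG (chk : ℕ → St → Option St) (s : ℕ) : St × List St :=
  Nat.rec (init, [init]) (fun k r => runStep chk k r) s

section run
variable {chk : ℕ → St → Option St}

theorem runG_zero : runG chk 0 = (init, [init]) := rfl

theorem runG_succ (s : ℕ) : runG chk (s + 1) = runStep chk s (runG chk s) := rfl

theorem runG_none {s : ℕ} (h : chk s (runG chk s).1 = none) : runG chk (s + 1) = runG chk s := by
  rw [runG_succ, runStep, h]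

theorem runG_some {s : ℕ} {st' : St} (h : chk s (runG chk s).1 = some st') :
    runG chk (s + 1) = (st', (runG chk s).2 ++ [st']) := by
  rw [runG_succ, runStep, h]

theorem runG_last (s : ℕ) : ∃ l, (runG chk s).2 = l ++ [(runG chk s).1] := by
  induction s with
  | zero => exact ⟨[], rfl⟩
  | succ s ih =>
    cases h : chk s (runG chk s).1 with
    | none => rw [runG_none h]; exact ih
    | some st' => rw [runG_some h]; exact ⟨_, rfl⟩

theorem runG_pairwise {R : St → St → Prop} (htr : ∀ a b c, R a b → R b c → R a c)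
    (h : ∀ s st st', chk s st = some st' → R st st') (s : ℕ) : (runG chk s).2.Pairwise R := by
  induction s with
  | zero => simp [runG_zero]
  | succ s ih =>
    cases hc : chk s (runG chk s).1 with
    | none => rw [runG_none hc]; exact ih
    | some st' =>
      rw [runG_some hc]
      obtain ⟨l, hl⟩ := runG_last (chk := chk) s
      have h1 := h s _ _ hc
      rw [List.pairwise_append]
      refine ⟨ih, List.pairwise_singleton _ _, ?_⟩
      intro a ha b hb
      rw [List.mem_singleton] at hb
      subst hb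
      rw [hl] at ih ha
      rw [List.pairwise_append] at ih
      rcases List.mem_append.mp ha with ha | ha
      · exact htr _ _ _ (ih.2.2 a ha _ (by simp)) h1
      · rw [List.mem_singleton] at ha
        rw [ha]; exact h1

theorem runG_inv {I : St → Prop} (h0 : I init)
    (h : ∀ s st st', I st → chk s st = some st' → I st') (s : ℕ) : ∀ st ∈ (runG chk s).2, I st := by
  induction s with
  | zero =>
    intro st hst
    rw [runG_zero] at hst
    simp only [List.mem_singleton] at hst
    rw [hst]; exact h0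
  | succ s ih =>
    cases hc : chk s (runG chk s).1 with
    | none => rw [runG_none hc]; exact ih
    | some st' =>
      rw [runG_some hc]
      intro st hst
      rcases List.mem_append.mp hst with hst | hst
      · exact ih st hst
      · rw [List.mem_singleton] at hst
        rw [hst]
        obtain ⟨l, hl⟩ := runG_last (chk := chk) s
        exact h s _ _ (ih _ (by rw [hl]; simp)) hc

theorem runG_ext {s s' : ℕ} (h : s ≤ s') : (runG chk s).2 <+: (runG chk s').2 := by
  induction s' with
  | zero => have : s = 0 := by omega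
            subst this; exact List.prefix_rfl
  | succ k ih =>
    rcases Nat.lt_or_ge k s with h1 | h1
    · have : s = k + 1 := by omega
      subst this; exact List.prefix_rfl
    · refine (ih h1).trans ?_
      cases hc : chk k (runG chk k).1 with
      | none => rw [runG_none hc]
      | some st' => rw [runG_some hc]; exact List.prefix_append _ _

theorem runG_cur_mem (s : ℕ) : (runG chk s).1 ∈ (runG chk s).2 := by
  obtain ⟨l, hl⟩ := runG_last (chk := chk) s
  rw [hl]; simp

/-- if the check eventually succeeds on every state that occurs, the history is unbounded -/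
theorem runG_unbounded
    (h : ∀ s, ∃ s0, ∀ s' ≥ s0, chk s' (runG chk s).1 ≠ none) (t : ℕ) :
    ∃ s, t ≤ (runG chk s).2.length := by
  induction t with
  | zero => exact ⟨0, Nat.zero_le _⟩
  | succ t ih =>
    obtain ⟨s, hs⟩ := ih
    by_contra hcon
    push Not at hcon
    -- the run is constant from s on
    have hconst : ∀ k, runG chk (s + k) = runG chk s := by
      intro k
      induction k with
      | zero => rfl
      | succ k ihk =>
        cases hc : chk (s + k) (runG chk (s + k)).1 with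
        | none => rw [← add_assoc, runG_none hc]; exact ihk
        | some st' =>
          exfalso
          have h1 := runG_some hc
          have h2 := hcon (s + k + 1)
          rw [h1, ihk] at h2
          simp only [List.length_append, List.length_singleton] at h2
          omega
    obtain ⟨s0, hs0⟩ := h s
    have h1 := hs0 (s + s0) (by omega)
    have h2 : chk (s + s0) (runG chk (s + s0)).1 ≠ none := by rw [hconst]; exact h1
    obtain ⟨st', hst'⟩ := Option.ne_none_iff_exists'.mp h2
    have h3 := runG_some hst'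
    have h4 := hconst (s0 + 1)
    rw [← add_assoc, h3, hconst] at h4
    have h5 := congrArg (fun r => r.2.length) h4
    simp at h5

end run

/-! ### Orders on the states -/

/-- order of the states in a history -/
def Ord (U : List Bool →. List Bool) (e : ℕ) (s t : St) : Prop :=
  (s.1 = t.1 ∧ s.2.1 = t.2.1 ∧ s.2.2.1 < t.2.2.1) ∨
  (s.1 = t.1 ∧ s.2.1 < t.2.1 ∧ LowT U e s.1 s.2.1 s.2.2.1) ∨ s.1 < t.1

theorem Ord.trans {U : List Bool →. List Bool} {e : ℕ} (a b c : St) (h1 : Ord U e a b)
    (h2 : Ord U e b c) : Ord U e a c := by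
  obtain ⟨an, aj, ai, ap⟩ := a
  obtain ⟨bn, bj, bi, bp⟩ := b
  obtain ⟨cn, cj, ci, cp⟩ := c
  unfold Ord at *
  simp only at *
  rcases h1 with ⟨x1, x2, x3⟩ | ⟨x1, x2, x3⟩ | x1
  · subst x1; subst x2
    rcases h2 with ⟨y1, y2, y3⟩ | ⟨y1, y2, y3⟩ | y1
    · left; exact ⟨y1, y2, by omega⟩
    · right; left; exact ⟨y1, y2, y3.mono x3.le⟩
    · right; right; exact y1
  · subst x1
    rcases h2 with ⟨y1, y2, y3⟩ | ⟨y1, y2, y3⟩ | y1
    · right; left; exact ⟨y1, by omega, x3⟩
    · right; left; exact ⟨y1, by omega, x3⟩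
    · right; right; exact y1
  · rcases h2 with ⟨y1, y2, y3⟩ | ⟨y1, y2, y3⟩ | y1
    · right; right; omega
    · right; right; omega
    · right; right; omega

theorem Ord.of_tr {U V : List Bool →. List Bool} {Ψ : (List Bool × ℕ) × ℕ → Prop} {e : ℕ}
    {s t : St} (h : Tr U V Ψ e s t) : Ord U e s t := by
  obtain ⟨n, j, i, pos⟩ := s
  rcases h with ⟨h1, rfl⟩ | ⟨_, rfl⟩
  · right; left; exact ⟨rfl, Nat.lt_succ_self _, h1⟩
  · unfold highNext
    simp only
    split_ifs with hi
    · left; exact ⟨rfl, rfl, Nat.lt_succ_self _⟩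
    · right; right; exact Nat.lt_succ_self _

/-- order of the positions -/
def Pos (s t : St) : Prop :=
  (s.1 = t.1 ∧ s.2.1 = t.2.1 ∧ s.2.2.2 = t.2.2.2) ∨ s.2.2.2 + 2 ^ (s.2.1 + 1) ≤ t.2.2.2

theorem Pos.trans (a b c : St) (h1 : Pos a b) (h2 : Pos b c) : Pos a c := by
  obtain ⟨an, aj, ai, ap⟩ := a
  obtain ⟨bn, bj, bi, bp⟩ := b
  obtain ⟨cn, cj, ci, cp⟩ := c
  unfold Pos at *
  simp only at *
  rcases h1 with ⟨x1, x2, x3⟩ | x1
  · subst x1; subst x2; subst x3; exact h2
  · rcases h2 with ⟨y1, y2, y3⟩ | y1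
    · subst y3; right; exact x1
    · right
      have h0 : ap + 2 ^ (aj + 1) + 2 ^ (bj + 1) ≤ cp :=
        (Nat.add_le_add_right x1 _).trans y1
      exact (Nat.le_add_right _ _).trans h0

theorem Pos.of_next {e : ℕ} {s t : St} (h : t = lowNext s ∨ t = highNext e s) : Pos s t := by
  obtain ⟨n, j, i, pos⟩ := s
  rcases h with rfl | rfl
  · right; exact le_rfl
  · unfold highNext
    simp only
    split_ifs with hi
    · left; exact ⟨rfl, rfl, rfl⟩
    · right; exact le_rfl

/-- length bound for histories -/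
theorem length_bound {U V : List Bool →. List Bool} {Ψ : (List Bool × ℕ) × ℕ → Prop} {e m : ℕ}
    (hme : m ≤ e)
    (hm : ∀ x k, ∀ F : Finset ℕ, (∀ y ∈ F, Ψ ((x, k), y)) → F.card ≤ m)
    (hV : ∀ p q : List Bool, (V p).Dom → (V q).Dom → p <+: q → p = q)
    (l : List St) (hl : l.Pairwise (Ord U e)) (hi : ∀ st ∈ l, Inv U V Ψ e st) :
    l.length ≤ ((2 ^ pB e + 1) * (2 ^ pS e + 1)) * (pR e + 1) := by
  set φ : St → ℕ := fun st => (st.1 * (2 ^ pS e + 1) + st.2.1) * (pR e + 1) + st.2.2.1 with hφ
  have hlt : ∀ s t : St, Inv U V Ψ e s → Ord U e s t → φ s < φ t := by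
    intro s t hs ho
    have hj := hs.j_le
    have hR := hs.1
    obtain ⟨n, j, i, pos⟩ := s
    obtain ⟨n', j', i', pos'⟩ := t
    simp only [Ord, hφ] at *
    rcases ho with ⟨x1, x2, x3⟩ | ⟨x1, x2, x3⟩ | x1
    · subst x1; subst x2; omega
    · subst x1
      have : (n * (2 ^ pS e + 1) + j + 1) * (pR e + 1) ≤ (n * (2 ^ pS e + 1) + j') * (pR e + 1) :=
        Nat.mul_le_mul_right _ (by omega)
      have e1 : (n * (2 ^ pS e + 1) + j + 1) * (pR e + 1) =
        (n * (2 ^ pS e + 1) + j) * (pR e + 1) + (pR e + 1) := by ring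
      omega
    · have h1 : n * (2 ^ pS e + 1) + j + 1 ≤ n' * (2 ^ pS e + 1) + j' := by
        have : (n + 1) * (2 ^ pS e + 1) ≤ n' * (2 ^ pS e + 1) := Nat.mul_le_mul_right _ x1
        have e1 : (n + 1) * (2 ^ pS e + 1) = n * (2 ^ pS e + 1) + (2 ^ pS e + 1) := by ring
        omega
      have : (n * (2 ^ pS e + 1) + j + 1) * (pR e + 1) ≤ (n' * (2 ^ pS e + 1) + j') * (pR e + 1) :=
        Nat.mul_le_mul_right _ h1
      have e1 : (n * (2 ^ pS e + 1) + j + 1) * (pR e + 1) =
        (n * (2 ^ pS e + 1) + j) * (pR e + 1) + (pR e + 1) := by ring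
      omega
  have hnd : (l.map φ).Nodup := by
    rw [List.Nodup, List.pairwise_map]
    refine List.Pairwise.imp_of_mem ?_ hl
    intro a b ha _ hab
    exact (hlt a b (hi a ha) hab).ne
  have hsub : (l.map φ).toFinset ⊆
      Finset.range (((2 ^ pB e + 1) * (2 ^ pS e + 1)) * (pR e + 1)) := by
    intro x hx
    rw [List.mem_toFinset, List.mem_map] at hx
    obtain ⟨st, hst, rfl⟩ := hx
    have hinv := hi st hst
    have hj := hinv.j_le
    have hR := hinv.1
    have hn := (hinv.bounds hme hm hV).1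
    rw [Finset.mem_range]
    simp only [hφ]
    have h1 : st.1 * (2 ^ pS e + 1) + st.2.1 + 1 ≤ (2 ^ pB e + 1) * (2 ^ pS e + 1) := by
      have : st.1 * (2 ^ pS e + 1) ≤ 2 ^ pB e * (2 ^ pS e + 1) := Nat.mul_le_mul_right _ hn
      have e1 : (2 ^ pB e + 1) * (2 ^ pS e + 1) = 2 ^ pB e * (2 ^ pS e + 1) + (2 ^ pS e + 1) := by
        ring
      omega
    have h2 : (st.1 * (2 ^ pS e + 1) + st.2.1 + 1) * (pR e + 1) ≤
        ((2 ^ pB e + 1) * (2 ^ pS e + 1)) * (pR e + 1) := Nat.mul_le_mul_right _ h1
    have e1 : (st.1 * (2 ^ pS e + 1) + st.2.1 + 1) * (pR e + 1) =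
        (st.1 * (2 ^ pS e + 1) + st.2.1) * (pR e + 1) + (pR e + 1) := by ring
    omega
  have hc := Finset.card_le_card hsub
  rw [List.toFinset_card_of_nodup hnd, List.length_map, Finset.card_range] at hc
  exact hc

/-- the rank of a state among those with the same program length is small -/
theorem rank_bound {U V : List Bool →. List Bool} {Ψ : (List Bool × ℕ) × ℕ → Prop} {e : ℕ}
    (l : List St) (st : St) (hl : (l ++ [st]).Pairwise (Ord U e))
    (hi : ∀ s ∈ l ++ [st], Inv U V Ψ e s) :
    (l.filter (fun s => decide (pv e s.1 + prho e s.2.2.1 = pv e st.1 + prho e st.2.2.1))).length <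
      2 ^ prho e st.2.2.1 := by
  classical
  have hst := hi st (by simp)
  rw [List.pairwise_append] at hl
  obtain ⟨hl1, _, hl2⟩ := hl
  set f := l.filter (fun s => decide (pv e s.1 + prho e s.2.2.1 = pv e st.1 + prho e st.2.2.1))
    with hf
  have hmem : ∀ s ∈ f, s ∈ l ∧ s.1 = st.1 ∧ s.2.2.1 = st.2.2.1 := by
    intro s hs
    rw [hf, List.mem_filter, decide_eq_true_eq] at hs
    refine ⟨hs.1, ?_⟩
    exact len_inj (hi s (by simp [hs.1])).1 hst.1 hs.2
  have hfp : f.Pairwise (Ord U e) := hl1.filter _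
  have hnd : (f.map (fun s => s.2.1)).Nodup := by
    rw [List.Nodup, List.pairwise_map]
    refine List.Pairwise.imp_of_mem ?_ hfp
    intro a b ha hb hab
    obtain ⟨_, a1, a2⟩ := hmem a ha
    obtain ⟨_, b1, b2⟩ := hmem b hb
    rcases hab with ⟨x1, x2, x3⟩ | ⟨x1, x2, x3⟩ | x1
    · omega
    · exact x2.ne
    · omega
  have hcount := low_count (U := U) (e := e) (n := st.1) (i := st.2.2.1) hst.1
    (f.map (fun s => s.2.1)).toFinset (by
      intro j hj
      rw [List.mem_toFinset, List.mem_map] at hj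
      obtain ⟨s, hs, rfl⟩ := hj
      obtain ⟨s0, s1, s2⟩ := hmem s hs
      rcases hl2 s s0 st (by simp) with ⟨x1, x2, x3⟩ | ⟨x1, x2, x3⟩ | x1
      · omega
      · rw [s1, s2] at x3; exact x3
      · omega)
  rw [List.toFinset_card_of_nodup hnd, List.length_map] at hcount
  exact hcount

/-- matching of a state and a (self-delimiting) program -/
def MatchK (e : ℕ) (st : St) (q : List Bool) : Prop :=
  q.length = (pB e - st.2.1) + pv e st.1 ∧ st.2.1 ≤ pB e ∧
    num q / 2 ^ pv e st.1 = st.2.2.2 / 2 ^ st.2.1 + 1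

theorem match_interval {e : ℕ} {st : St} {q : List Bool} (h : MatchK e st q) (t : List Bool) :
    st.2.2.2 * 2 ^ (q ++ t).length < num (q ++ t) * 2 ^ pB e ∧
    num (q ++ t) * 2 ^ pB e < (st.2.2.2 + 2 ^ (st.2.1 + 1)) * 2 ^ (q ++ t).length := by
  obtain ⟨n, j, i, pos⟩ := st
  obtain ⟨h1, h2, h3⟩ := h
  simp only at h1 h2 h3 ⊢
  set v := pv e n
  have hB : pB e = (pB e - j) + j := by omega
  set b := pB e - j
  have a1 := Nat.div_add_mod (num q) (2 ^ v)
  have a2 := Nat.mod_lt (num q) (y := 2 ^ v) (by positivity)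
  have a3 := Nat.div_add_mod pos (2 ^ j)
  have a4 := Nat.mod_lt pos (y := 2 ^ j) (by positivity)
  rw [h3] at a1
  set c := pos / 2 ^ j
  rw [num_append, List.length_append, h1, hB]
  have t1 := num_lt t
  have e1 : (2 : ℕ) ^ (b + v + t.length) = 2 ^ b * 2 ^ v * 2 ^ t.length := by
    rw [pow_add, pow_add]
  have e2 : (2 : ℕ) ^ (b + j) = 2 ^ b * 2 ^ j := by rw [pow_add]
  rw [e1, e2]
  have p1 : 0 < 2 ^ b := by positivity
  have p2 : 0 < 2 ^ v := by positivity
  have p3 : 0 < 2 ^ t.length := by positivity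
  have p4 : 0 < 2 ^ j := by positivity
  constructor
  · -- pos < (c+1) 2^j
    have b1 : pos < 2 ^ j * (c + 1) := by rw [mul_add]; omega
    have b2 : 2 ^ v * (c + 1) ≤ num q := by omega
    calc pos * (2 ^ b * 2 ^ v * 2 ^ t.length) < (2 ^ j * (c + 1)) * (2 ^ b * 2 ^ v * 2 ^ t.length) :=
          Nat.mul_lt_mul_of_pos_right b1 (by positivity)
      _ = (2 ^ t.length * (2 ^ v * (c + 1))) * (2 ^ b * 2 ^ j) := by ring
      _ ≤ (2 ^ t.length * num q + num t) * (2 ^ b * 2 ^ j) :=
          Nat.mul_le_mul_right _ ((Nat.mul_le_mul_left _ b2).trans (Nat.le_add_right _ _))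
  · have b1 : 2 ^ j * (c + 2) ≤ pos + 2 ^ (j + 1) := by
      rw [mul_add, pow_succ]; omega
    have b2 : num q + 1 ≤ 2 ^ v * (c + 2) := by
      have : 2 ^ v * (c + 2) = 2 ^ v * (c + 1) + 2 ^ v := by ring
      omega
    calc (2 ^ t.length * num q + num t) * (2 ^ b * 2 ^ j)
        < (2 ^ t.length * (num q + 1)) * (2 ^ b * 2 ^ j) :=
          Nat.mul_lt_mul_of_pos_right (by rw [mul_add]; omega) (by positivity)
      _ ≤ (2 ^ t.length * (2 ^ v * (c + 2))) * (2 ^ b * 2 ^ j) :=
          Nat.mul_le_mul_right _ (Nat.mul_le_mul_left _ b2)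
      _ = (2 ^ j * (c + 2)) * (2 ^ b * 2 ^ v * 2 ^ t.length) := by ring
      _ ≤ (pos + 2 ^ (j + 1)) * (2 ^ b * 2 ^ v * 2 ^ t.length) := Nat.mul_le_mul_right _ b1

theorem match_unique {e : ℕ} {s s' : St} {q t : List Bool} (h : MatchK e s q)
    (h' : MatchK e s' (q ++ t)) (ho : Pos s s' ∨ Pos s' s) :
    s.1 = s'.1 ∧ s.2.1 = s'.2.1 ∧ t = [] := by
  have h1 := match_interval h t
  have h2 := match_interval h' []
  rw [List.append_nil] at h2
  have h3 : s.2.2.2 < s'.2.2.2 + 2 ^ (s'.2.1 + 1) := by
    have := h1.1.trans h2.2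
    exact lt_of_mul_lt_mul_right this (Nat.zero_le _)
  have h4 : s'.2.2.2 < s.2.2.2 + 2 ^ (s.2.1 + 1) := by
    have := h2.1.trans h1.2
    exact lt_of_mul_lt_mul_right this (Nat.zero_le _)
  have h5 : s.1 = s'.1 ∧ s.2.1 = s'.2.1 := by
    rcases ho with (⟨x1, x2, x3⟩ | x1) | (⟨x1, x2, x3⟩ | x1)
    · exact ⟨x1, x2⟩
    · omega
    · exact ⟨x1.symm, x2.symm⟩
    · omega
  refine ⟨h5.1, h5.2, ?_⟩
  have h6 := h.1
  have h7 := h'.1
  rw [List.length_append, ← h5.1, ← h5.2] at h7
  exact List.length_eq_zero_iff.mp (by omega)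

theorem exists_match {e : ℕ} {st : St} (h1 : st.2.2.2 + 2 ^ (st.2.1 + 1) ≤ 2 ^ pB e)
    (h2 : st.2.1 ≤ pB e) {a : ℕ} (ha : a < 2 ^ pv e st.1) :
    ∃ q, MatchK e st q ∧ num q % 2 ^ pv e st.1 = a := by
  obtain ⟨n, j, i, pos⟩ := st
  simp only at h1 h2 ha ⊢
  have p4 : 0 < 2 ^ j := by positivity
  have a3 := Nat.div_add_mod pos (2 ^ j)
  have hc : pos / 2 ^ j + 1 < 2 ^ (pB e - j) := by
    have hB : 2 ^ pB e = 2 ^ j * 2 ^ (pB e - j) := by rw [← pow_add]; congr 1; omega
    have : 2 ^ j * (pos / 2 ^ j + 2) ≤ 2 ^ j * 2 ^ (pB e - j) := by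
      rw [← hB]
      refine le_trans ?_ h1
      rw [mul_add, pow_succ]; omega
    have := Nat.le_of_mul_le_mul_left this p4
    omega
  obtain ⟨q, hq1, hq2⟩ := exists_num (m := (pB e - j) + pv e n)
    (N := (pos / 2 ^ j + 1) * 2 ^ pv e n + a) (by
      rw [pow_add]
      calc (pos / 2 ^ j + 1) * 2 ^ pv e n + a < (pos / 2 ^ j + 1) * 2 ^ pv e n + 2 ^ pv e n := by omega
        _ = (pos / 2 ^ j + 1 + 1) * 2 ^ pv e n := by ring
        _ ≤ 2 ^ (pB e - j) * 2 ^ pv e n := Nat.mul_le_mul_right _ hc)
  refine ⟨q, ⟨hq1, h2, ?_⟩, ?_⟩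
  · simp only
    rw [hq2, Nat.add_comm, Nat.add_mul_div_right _ _ (by positivity), Nat.div_eq_of_lt ha, zero_add]
  · rw [hq2, Nat.add_comm, Nat.add_mul_mod_self_right, Nat.mod_eq_of_lt ha]

end PartD

section PartE2

open Primrec

/-! ### Primitive recursiveness of the parameters -/

theorem primrec_pow : Primrec₂ ((· ^ ·) : ℕ → ℕ → ℕ) := Primrec₂.unpaired'.1 Nat.Primrec.pow

section params
variable {α : Type} [Primcodable α] {f g h k : α → ℕ}

theorem p_add (hf : Primrec f) (hg : Primrec g) : Primrec fun a => f a + g a :=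
  Primrec.nat_add.comp hf hg
theorem p_sub (hf : Primrec f) (hg : Primrec g) : Primrec fun a => f a - g a :=
  Primrec.nat_sub.comp hf hg
theorem p_mul (hf : Primrec f) (hg : Primrec g) : Primrec fun a => f a * g a :=
  Primrec.nat_mul.comp hf hg
theorem p_div (hf : Primrec f) (hg : Primrec g) : Primrec fun a => f a / g a :=
  Primrec.nat_div.comp hf hg
theorem p_mod (hf : Primrec f) (hg : Primrec g) : Primrec fun a => f a % g a :=
  Primrec.nat_mod.comp hf hg
theorem p_pow (hf : Primrec f) (hg : Primrec g) : Primrec fun a => f a ^ g a :=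
  primrec_pow.comp hf hg
theorem p_two_pow (hg : Primrec g) : Primrec fun a => 2 ^ g a :=
  primrec_pow.comp (Primrec.const 2) hg
theorem p_addc (hf : Primrec f) (c : ℕ) : Primrec fun a => f a + c :=
  Primrec.nat_add.comp hf (Primrec.const c)

theorem p_pE (hf : Primrec f) : Primrec fun a => pE (f a) :=
  p_addc (p_mul (Primrec.const 2) hf) 1
theorem p_pD (hf : Primrec f) : Primrec fun a => pD (f a) := p_addc (p_pE hf) 5
theorem p_pR (hf : Primrec f) : Primrec fun a => pR (f a) := p_mul (p_pD hf) hf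
theorem p_pg (hf : Primrec f) : Primrec fun a => pg (f a) :=
  p_addc (p_add (p_pE hf) (p_pR hf)) 3
theorem p_ph (hf : Primrec f) : Primrec fun a => ph (f a) := p_addc (p_pg hf) 1
theorem p_pL (hf : Primrec f) (hg : Primrec g) : Primrec fun a => pL (f a) (g a) :=
  p_mul (p_ph hf) (p_sub (p_addc (p_pR hf) 1) hg)
theorem p_pS (hf : Primrec f) : Primrec fun a => pS (f a) :=
  p_mul (p_ph hf) (p_addc (p_pR hf) 1)
theorem p_pv (hf : Primrec f) (hg : Primrec g) : Primrec fun a => pv (f a) (g a) :=
  p_mul (p_addc hg 1) (p_pS hf)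
theorem p_pB (hf : Primrec f) : Primrec fun a => pB (f a) := p_addc (p_two_pow (p_pS hf)) 4
theorem p_prho (hf : Primrec f) (hg : Primrec g) : Primrec fun a => prho (f a) (g a) :=
  p_sub (p_pL hf hg) (p_pE hf)
theorem p_pth (hf : Primrec f) (hg : Primrec g) : Primrec fun a => pth (f a) (g a) :=
  p_two_pow (p_sub (p_pv hf hg) (p_addc (p_pR hf) 1))
theorem p_pk (hf : Primrec f) (hg : Primrec g) (hh : Primrec h) :
    Primrec fun a => pk (f a) (g a) (h a) :=
  p_add (p_add (p_pv hf hg) (p_sub (p_pB hf) hh)) (p_pE hf)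
theorem p_X (hf : Primrec f) (hg : Primrec g) (hh : Primrec h) :
    Primrec fun a => X (f a) (g a) (h a) :=
  Primrec.list_map (Primrec.list_range.comp (Primrec₂.natPair.comp hf (Primrec₂.natPair.comp hg hh)))
    (Primrec₂.const true)

end params

theorem p_num : Primrec num := by
  have h : Primrec₂ (fun (_ : List Bool) (sb : ℕ × Bool) => 2 * sb.1 + (if sb.2 then 1 else 0)) := by
    refine p_add (p_mul (Primrec.const 2) (Primrec.fst.comp Primrec.snd)) ?_
    exact (Primrec.dom_bool (fun b => if b then 1 else 0)).comp (Primrec.snd.comp Primrec.snd)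
  exact (Primrec.list_foldl Primrec.id (Primrec.const 0) h)

/-! ### The stage enumerations -/

theorem exists_enum {α σ : Type} [Primcodable α] [Primcodable σ] {f : α →. σ} (hf : Partrec f) :
    ∃ E : ℕ → α → Option σ, Primrec₂ E ∧ (∀ a b, b ∈ f a ↔ ∃ s, E s a = some b) ∧
      (∀ s s' a b, s ≤ s' → E s a = some b → E s' a = some b) := by
  obtain ⟨c, hc⟩ := Nat.Partrec.Code.exists_code.1 hf
  refine ⟨fun s a => (Nat.Partrec.Code.evaln s c (Encodable.encode a)).bind
    (fun m => (Encodable.decode m : Option σ)), ?_, ?_, ?_⟩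
  · have h1 : Primrec (fun x : ℕ × α => Nat.Partrec.Code.evaln x.1 c (Encodable.encode x.2)) :=
      Nat.Partrec.Code.primrec_evaln.comp
        (Primrec.pair (Primrec.pair Primrec.fst (Primrec.const c)) (Primrec.encode.comp Primrec.snd))
    exact Primrec.option_bind h1 (Primrec.decode.comp Primrec.snd)
  · intro a b
    have key : ∀ m, m ∈ Nat.Partrec.Code.eval c (Encodable.encode a) ↔
        ∃ b' ∈ f a, Encodable.encode b' = m := by
      intro m
      rw [hc]
      simp [Part.mem_map_iff]
    constructor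
    · intro hb
      have h1 := (key (Encodable.encode b)).2 ⟨b, hb, rfl⟩
      rw [Nat.Partrec.Code.evaln_complete] at h1
      obtain ⟨s, hs⟩ := h1
      refine ⟨s, ?_⟩
      rw [Option.mem_def] at hs
      simp [hs]
    · rintro ⟨s, hs⟩
      rw [Option.bind_eq_some_iff] at hs
      obtain ⟨m, hm, hd⟩ := hs
      have h1 : m ∈ Nat.Partrec.Code.eval c (Encodable.encode a) :=
        Nat.Partrec.Code.evaln_complete.2 ⟨s, hm⟩
      obtain ⟨b', hb', hbm⟩ := (key m).1 h1
      rw [← hbm, Encodable.encodek] at hd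
      rw [← Option.some_inj.mp hd]; exact hb'
  · intro s s' a b hss h
    rw [Option.bind_eq_some_iff] at h ⊢
    obtain ⟨m, hm, hd⟩ := h
    exact ⟨m, Nat.Partrec.Code.evaln_mono hss hm, hd⟩

/-- all strings up to stage `s` -/
def strs (s : ℕ) : List (List Bool) :=
  (List.range s).map (fun m => ((Encodable.decode m : Option (List Bool)).getD []))

theorem mem_strs (p : List Bool) {s : ℕ} (h : Encodable.encode p < s) : p ∈ strs s := by
  unfold strs
  rw [List.mem_map]
  exact ⟨Encodable.encode p, List.mem_range.mpr h, by simp⟩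

theorem strs_mono {s s' : ℕ} (h : s ≤ s') {p : List Bool} (hp : p ∈ strs s) : p ∈ strs s' := by
  unfold strs at *
  rw [List.mem_map] at *
  obtain ⟨m, hm, rfl⟩ := hp
  exact ⟨m, List.mem_range.mpr (lt_of_lt_of_le (List.mem_range.mp hm) h), rfl⟩

theorem p_strs : Primrec strs :=
  Primrec.list_map Primrec.list_range
    ((Primrec.option_getD.comp Primrec.decode (Primrec.const [])).comp Primrec.snd)

section game
variable (EU EV : ℕ → List Bool → Option (List Bool)) (EP : ℕ → (List Bool × ℕ) × ℕ → Bool)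

abbrev WP := (ℕ × List Bool) × (ℕ × ℕ × ℕ)

def Body (q : List Bool) (b : List Bool × WP) : Prop :=
  EU b.2.1.1 b.1 = some b.2.1.2 ∧ EV b.2.1.1 q = some b.2.1.2 ∧
    EP b.2.1.1 ((b.2.1.2, q.length), b.1.length) = true ∧ q.length ≤ b.2.2.1 ∧
    b.2.2.2.1 ≤ b.1.length ∧ b.1.length ≤ b.2.2.2.2

def Wit (t : WP) : Prop := ∃ p ∈ strs t.1.1, ∃ q ∈ strs t.1.1, Body EU EV EP q (p, t)

def WitA (a : ℕ) (t : (ℕ × St) × (ℕ × ℕ × ℕ)) : Prop :=
  Wit EU EV EP ((t.1.1, X t.1.2.1 t.1.2.2.1 a), t.2)

open Classical in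
noncomputable def cnt (L : ℕ) (t : (ℕ × St) × (ℕ × ℕ × ℕ)) : ℕ :=
  ((List.range L).filter (fun a => WitA EU EV EP a t)).length

noncomputable def chk (e : ℕ) (s : ℕ) (st : St) : Option St :=
  if pth e st.1 ≤ cnt EU EV EP (2 ^ pv e st.1)
      ((s, st), (pk e st.1 st.2.1, 0, pv e st.1 + (pL e st.2.2.1 - pg e))) then
    some (lowNext st)
  else if 2 ^ pv e st.1 < cnt EU EV EP (2 ^ pv e st.1)
      ((s, st), (pk e st.1 st.2.1, pv e st.1 + (pL e st.2.2.1 - pg e) + 1,
        pv e st.1 + pL e st.2.2.1)) + pth e st.1 then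
    some (highNext e st)
  else none

variable {EU EV EP}

theorem p_Body (hU : Primrec₂ EU) (hV : Primrec₂ EV) (hP : Primrec₂ EP) :
    PrimrecRel (Body EU EV EP) := by
  have q : Primrec (fun c : List Bool × (List Bool × WP) => c.1) := Primrec.fst
  have p : Primrec (fun c : List Bool × (List Bool × WP) => c.2.1) :=
    Primrec.fst.comp Primrec.snd
  have t : Primrec (fun c : List Bool × (List Bool × WP) => c.2.2) :=
    Primrec.snd.comp Primrec.snd
  have t1 : Primrec (fun c : List Bool × (List Bool × WP) => c.2.2.1) := Primrec.fst.comp t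
  have t2 : Primrec (fun c : List Bool × (List Bool × WP) => c.2.2.2) := Primrec.snd.comp t
  have s : Primrec (fun c : List Bool × (List Bool × WP) => c.2.2.1.1) := Primrec.fst.comp t1
  have x : Primrec (fun c : List Bool × (List Bool × WP) => c.2.2.1.2) := Primrec.snd.comp t1
  have km : Primrec (fun c : List Bool × (List Bool × WP) => c.2.2.2.1) := Primrec.fst.comp t2
  have t3 : Primrec (fun c : List Bool × (List Bool × WP) => c.2.2.2.2) := Primrec.snd.comp t2
  have lo : Primrec (fun c : List Bool × (List Bool × WP) => c.2.2.2.2.1) := Primrec.fst.comp t3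
  have hi : Primrec (fun c : List Bool × (List Bool × WP) => c.2.2.2.2.2) := Primrec.snd.comp t3
  have lq := Primrec.list_length.comp q
  have lp := Primrec.list_length.comp p
  refine PrimrecPred.and (Primrec.eq.comp (hU.comp s p) (Primrec.option_some.comp x)) ?_
  refine PrimrecPred.and (Primrec.eq.comp (hV.comp s q) (Primrec.option_some.comp x)) ?_
  refine PrimrecPred.and (Primrec.eq.comp
    (hP.comp s (Primrec.pair (Primrec.pair x lq) lp)) (Primrec.const true)) ?_
  refine PrimrecPred.and (Primrec.nat_le.comp lq km) ?_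
  exact PrimrecPred.and (Primrec.nat_le.comp lo lp) (Primrec.nat_le.comp lp hi)

theorem p_Wit (hU : Primrec₂ EU) (hV : Primrec₂ EV) (hP : Primrec₂ EP) :
    PrimrecPred (Wit EU EV EP) := by
  have h1 : PrimrecRel (fun (p : List Bool) (t : WP) =>
      ∃ q ∈ strs t.1.1, Body EU EV EP q (p, t)) :=
    (p_Body hU hV hP).exists_mem_list.comp
      (f := fun c : List Bool × WP => strs c.2.1.1) (g := fun c : List Bool × WP => c)
      (p_strs.comp (Primrec.fst.comp (Primrec.fst.comp Primrec.snd))) Primrec.id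
  exact h1.exists_mem_list.comp (f := fun t : WP => strs t.1.1) (g := fun t : WP => t)
    (p_strs.comp (Primrec.fst.comp Primrec.fst)) Primrec.id

theorem p_WitA (hU : Primrec₂ EU) (hV : Primrec₂ EV) (hP : Primrec₂ EP) :
    PrimrecRel (WitA EU EV EP) := by
  have t : Primrec (fun c : ℕ × ((ℕ × St) × (ℕ × ℕ × ℕ)) => c.2) := Primrec.snd
  have st : Primrec (fun c : ℕ × ((ℕ × St) × (ℕ × ℕ × ℕ)) => c.2.1.2) :=
    Primrec.snd.comp (Primrec.fst.comp t)
  refine (p_Wit hU hV hP).comp
    (f := fun c : ℕ × ((ℕ × St) × (ℕ × ℕ × ℕ)) => ((c.2.1.1, X c.2.1.2.1 c.2.1.2.2.1 c.1), c.2.2)) ?_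
  refine Primrec.pair (Primrec.pair (Primrec.fst.comp (Primrec.fst.comp t)) ?_) (Primrec.snd.comp t)
  exact p_X (Primrec.fst.comp st) (Primrec.fst.comp (Primrec.snd.comp st)) Primrec.fst

theorem p_cnt (hU : Primrec₂ EU) (hV : Primrec₂ EV) (hP : Primrec₂ EP) :
    Primrec₂ (cnt EU EV EP) := by
  classical
  exact Primrec.list_length.comp
    ((p_WitA hU hV hP).listFilter.comp (Primrec.list_range.comp Primrec.fst) Primrec.snd)

theorem p_chk (hU : Primrec₂ EU) (hV : Primrec₂ EV) (hP : Primrec₂ EP) :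
    Primrec (fun c : ℕ × (ℕ × St) => chk EU EV EP c.1 c.2.1 c.2.2) := by
  have e : Primrec (fun c : ℕ × (ℕ × St) => c.1) := Primrec.fst
  have s : Primrec (fun c : ℕ × (ℕ × St) => c.2.1) := Primrec.fst.comp Primrec.snd
  have st : Primrec (fun c : ℕ × (ℕ × St) => c.2.2) := Primrec.snd.comp Primrec.snd
  have n : Primrec (fun c : ℕ × (ℕ × St) => c.2.2.1) := Primrec.fst.comp st
  have st1 : Primrec (fun c : ℕ × (ℕ × St) => c.2.2.2) := Primrec.snd.comp st
  have j : Primrec (fun c : ℕ × (ℕ × St) => c.2.2.2.1) := Primrec.fst.comp st1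
  have st2 : Primrec (fun c : ℕ × (ℕ × St) => c.2.2.2.2) := Primrec.snd.comp st1
  have i : Primrec (fun c : ℕ × (ℕ × St) => c.2.2.2.2.1) := Primrec.fst.comp st2
  have pos : Primrec (fun c : ℕ × (ℕ × St) => c.2.2.2.2.2) := Primrec.snd.comp st2
  have hv := p_pv e n
  have hth := p_pth e n
  have hk := p_pk e n j
  have hL := p_pL e i
  have hg := p_pg e
  have hlo := p_add hv (p_sub hL hg)
  have hpos' := p_add pos (p_two_pow (p_addc j 1))
  have hlow : Primrec (fun c : ℕ × (ℕ × St) => lowNext c.2.2) :=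
    Primrec.pair n (Primrec.pair (p_addc j 1) (Primrec.pair (Primrec.const 0) hpos'))
  have hhigh : Primrec (fun c : ℕ × (ℕ × St) => highNext c.1 c.2.2) := by
    refine Primrec.ite (Primrec.nat_lt.comp i (p_pR e)) ?_ ?_
    · exact Primrec.pair n (Primrec.pair j (Primrec.pair (p_addc i 1) pos))
    · exact Primrec.pair (p_addc n 1) (Primrec.pair (Primrec.const 0)
        (Primrec.pair (Primrec.const 0) hpos'))
  have c1 := (p_cnt hU hV hP).comp (p_two_pow hv)
    (Primrec.pair (Primrec.pair s st) (Primrec.pair hk (Primrec.pair (Primrec.const 0) hlo)))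
  have c2 := (p_cnt hU hV hP).comp (p_two_pow hv)
    (Primrec.pair (Primrec.pair s st) (Primrec.pair hk (Primrec.pair (p_addc hlo 1) (p_add hv hL))))
  unfold chk
  refine Primrec.ite (Primrec.nat_le.comp hth c1) (Primrec.option_some.comp hlow) ?_
  exact Primrec.ite (Primrec.nat_lt.comp (p_two_pow hv) (p_add c2 hth))
    (Primrec.option_some.comp hhigh) (Primrec.const none)

/-- the history of game `e` at stage `s` -/
noncomputable def run (EU EV : ℕ → List Bool → Option (List Bool))
    (EP : ℕ → (List Bool × ℕ) × ℕ → Bool) (e s : ℕ) : St × List St := runG (chk EU EV EP e) s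

theorem p_runStep (hU : Primrec₂ EU) (hV : Primrec₂ EV) (hP : Primrec₂ EP) :
    Primrec₂ (fun (e : ℕ) (kr : ℕ × (St × List St)) =>
      runStep (chk EU EV EP e) kr.1 kr.2) := by
  have e : Primrec (fun c : ℕ × (ℕ × (St × List St)) => c.1) := Primrec.fst
  have k : Primrec (fun c : ℕ × (ℕ × (St × List St)) => c.2.1) := Primrec.fst.comp Primrec.snd
  have r : Primrec (fun c : ℕ × (ℕ × (St × List St)) => c.2.2) := Primrec.snd.comp Primrec.snd
  have hc := (p_chk hU hV hP).comp (Primrec.pair e (Primrec.pair k (Primrec.fst.comp r)))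
  have hg : Primrec₂ (fun (c : ℕ × (ℕ × (St × List St))) (st' : St) =>
      ((st', c.2.2.2 ++ [st']) : St × List St)) := by
    refine Primrec.pair Primrec.snd ?_
    exact Primrec.list_append.comp (Primrec.snd.comp (r.comp Primrec.fst))
      (Primrec.list_cons.comp Primrec.snd (Primrec.const []))
  exact Primrec.option_casesOn hc r hg

theorem p_run (hU : Primrec₂ EU) (hV : Primrec₂ EV) (hP : Primrec₂ EP) :
    Primrec₂ (run EU EV EP) := by
  have h2 := Primrec.nat_rec (α := ℕ) (β := St × List St) (f := fun _ => (init, [init]))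
    (g := fun (e : ℕ) (kr : ℕ × (St × List St)) => runStep (chk EU EV EP e) kr.1 kr.2)
    (Primrec.const _) (p_runStep hU hV hP)
  exact h2

end game

end PartE2

section PartF

open Primrec

section machines
variable (EU EV : ℕ → List Bool → Option (List Bool)) (EP : ℕ → (List Bool × ℕ) × ℕ → Bool)

/-- output of the plain machine -/
noncomputable def outP (p : List Bool) (s : ℕ) : Option (List Bool) :=
  if (p.dropWhile (fun b => b)) = [] then none else
    (((run EU EV EP (p.takeWhile (fun b => b)).length s).2.filter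
      (fun st => decide (pv (p.takeWhile (fun b => b)).length st.1 +
        prho (p.takeWhile (fun b => b)).length st.2.2.1 = (p.dropWhile (fun b => b)).tail.length)))[
      num (p.dropWhile (fun b => b)).tail / 2 ^ (pS (p.takeWhile (fun b => b)).length *
        ((p.dropWhile (fun b => b)).tail.length / pS (p.takeWhile (fun b => b)).length))]?).map
    (fun st => X st.1 st.2.1
      (num (p.dropWhile (fun b => b)).tail % 2 ^ (pS (p.takeWhile (fun b => b)).length *
        ((p.dropWhile (fun b => b)).tail.length / pS (p.takeWhile (fun b => b)).length))))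

/-- output of the self-delimiting machine -/
noncomputable def outK (p : List Bool) (s : ℕ) : Option (List Bool) :=
  if (p.dropWhile (fun b => b)) = [] then none else
    (((run EU EV EP (p.takeWhile (fun b => b)).length s).2.filter
      (fun st => decide (
        (p.dropWhile (fun b => b)).tail.length =
          (pB (p.takeWhile (fun b => b)).length - st.2.1) +
            pv (p.takeWhile (fun b => b)).length st.1 ∧
        st.2.1 ≤ pB (p.takeWhile (fun b => b)).length ∧
        num (p.dropWhile (fun b => b)).tail / 2 ^ pv (p.takeWhile (fun b => b)).length st.1 =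
          st.2.2.2 / 2 ^ st.2.1 + 1)))[0]?).map
    (fun st => X st.1 st.2.1
      (num (p.dropWhile (fun b => b)).tail % 2 ^ pv (p.takeWhile (fun b => b)).length st.1))

variable {EU EV EP}

theorem p_outP (hU : Primrec₂ EU) (hV : Primrec₂ EV) (hP : Primrec₂ EP) :
    Primrec₂ (outP EU EV EP) := by
  have p : Primrec (fun c : List Bool × ℕ => c.1) := Primrec.fst
  have s : Primrec (fun c : List Bool × ℕ => c.2) := Primrec.snd
  have dw : Primrec (fun c : List Bool × ℕ => c.1.dropWhile (fun b => b)) :=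
    (Primrec.list_dropWhile (p := fun b : Bool => b) Primrec.id).comp p
  have q : Primrec (fun c : List Bool × ℕ => (c.1.dropWhile (fun b => b)).tail) :=
    Primrec.list_tail.comp dw
  have e : Primrec (fun c : List Bool × ℕ => (c.1.takeWhile (fun b => b)).length) :=
    Primrec.list_length.comp ((Primrec.list_takeWhile (p := fun b : Bool => b) Primrec.id).comp p)
  have lq := Primrec.list_length.comp q
  have nq := p_num.comp q
  have vv := p_two_pow (p_mul (p_pS e) (p_div lq (p_pS e)))
  have hR : PrimrecRel (fun (st : St) (c : List Bool × ℕ) =>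
      pv (c.1.takeWhile (fun b => b)).length st.1 +
        prho (c.1.takeWhile (fun b => b)).length st.2.2.1 =
          (c.1.dropWhile (fun b => b)).tail.length) := by
    have e' := e.comp (Primrec.snd (α := St) (β := List Bool × ℕ))
    have lq' := lq.comp (Primrec.snd (α := St) (β := List Bool × ℕ))
    have st : Primrec (fun c : St × (List Bool × ℕ) => c.1) := Primrec.fst
    exact Primrec.eq.comp (p_add (p_pv e' (Primrec.fst.comp st)) (p_prho e'
      (Primrec.fst.comp (Primrec.snd.comp (Primrec.snd.comp st))))) lq'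
  have hl := hR.listFilter.comp (Primrec.snd.comp ((p_run hU hV hP).comp e s))
    (Primrec.id (α := List Bool × ℕ))
  have hg := Primrec.list_getElem?.comp hl (p_div nq vv)
  have hX : Primrec₂ (fun (c : List Bool × ℕ) (st : St) => X st.1 st.2.1
      (num (c.1.dropWhile (fun b => b)).tail % 2 ^ (pS (c.1.takeWhile (fun b => b)).length *
        ((c.1.dropWhile (fun b => b)).tail.length / pS (c.1.takeWhile (fun b => b)).length)))) := by
    have st : Primrec (fun c : (List Bool × ℕ) × St => c.2) := Primrec.snd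
    exact p_X (Primrec.fst.comp st) (Primrec.fst.comp (Primrec.snd.comp st))
      (p_mod (nq.comp Primrec.fst) (vv.comp Primrec.fst))
  exact Primrec.ite (Primrec.eq.comp dw (Primrec.const [])) (Primrec.const none)
    (Primrec.option_map hg hX)

theorem p_outK (hU : Primrec₂ EU) (hV : Primrec₂ EV) (hP : Primrec₂ EP) :
    Primrec₂ (outK EU EV EP) := by
  have p : Primrec (fun c : List Bool × ℕ => c.1) := Primrec.fst
  have s : Primrec (fun c : List Bool × ℕ => c.2) := Primrec.snd
  have dw : Primrec (fun c : List Bool × ℕ => c.1.dropWhile (fun b => b)) :=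
    (Primrec.list_dropWhile (p := fun b : Bool => b) Primrec.id).comp p
  have q : Primrec (fun c : List Bool × ℕ => (c.1.dropWhile (fun b => b)).tail) :=
    Primrec.list_tail.comp dw
  have e : Primrec (fun c : List Bool × ℕ => (c.1.takeWhile (fun b => b)).length) :=
    Primrec.list_length.comp ((Primrec.list_takeWhile (p := fun b : Bool => b) Primrec.id).comp p)
  have lq := Primrec.list_length.comp q
  have nq := p_num.comp q
  have hR : PrimrecRel (fun (st : St) (c : List Bool × ℕ) =>
      ((c.1.dropWhile (fun b => b)).tail.length =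
          (pB (c.1.takeWhile (fun b => b)).length - st.2.1) +
            pv (c.1.takeWhile (fun b => b)).length st.1 ∧
        st.2.1 ≤ pB (c.1.takeWhile (fun b => b)).length ∧
        num (c.1.dropWhile (fun b => b)).tail / 2 ^ pv (c.1.takeWhile (fun b => b)).length st.1 =
          st.2.2.2 / 2 ^ st.2.1 + 1)) := by
    have e' := e.comp (Primrec.snd (α := St) (β := List Bool × ℕ))
    have lq' := lq.comp (Primrec.snd (α := St) (β := List Bool × ℕ))
    have nq' := nq.comp (Primrec.snd (α := St) (β := List Bool × ℕ))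
    have st : Primrec (fun c : St × (List Bool × ℕ) => c.1) := Primrec.fst
    have n := Primrec.fst.comp st
    have j := Primrec.fst.comp (Primrec.snd.comp st)
    have pos := Primrec.snd.comp (Primrec.snd.comp (Primrec.snd.comp st))
    refine PrimrecPred.and (Primrec.eq.comp lq' (p_add (p_sub (p_pB e') j) (p_pv e' n))) ?_
    refine PrimrecPred.and (Primrec.nat_le.comp j (p_pB e')) ?_
    exact Primrec.eq.comp (p_div nq' (p_two_pow (p_pv e' n)))
      (p_addc (p_div pos (p_two_pow j)) 1)
  have hl := hR.listFilter.comp (Primrec.snd.comp ((p_run hU hV hP).comp e s))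
    (Primrec.id (α := List Bool × ℕ))
  have hg := Primrec.list_getElem?.comp hl (Primrec.const 0)
  have hX : Primrec₂ (fun (c : List Bool × ℕ) (st : St) => X st.1 st.2.1
      (num (c.1.dropWhile (fun b => b)).tail %
        2 ^ pv (c.1.takeWhile (fun b => b)).length st.1)) := by
    have st : Primrec (fun c : (List Bool × ℕ) × St => c.2) := Primrec.snd
    exact p_X (Primrec.fst.comp st) (Primrec.fst.comp (Primrec.snd.comp st))
      (p_mod (nq.comp Primrec.fst) (p_two_pow (p_pv (e.comp Primrec.fst) (Primrec.fst.comp st))))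
  exact Primrec.ite (Primrec.eq.comp dw (Primrec.const [])) (Primrec.const none)
    (Primrec.option_map hg hX)

/-- program with parameter `e` and body `q` -/
def prog (e : ℕ) (q : List Bool) : List Bool := List.replicate e true ++ false :: q

theorem prog_length (e : ℕ) (q : List Bool) : (prog e q).length = e + 1 + q.length := by
  simp [prog]; omega

theorem prog_take (e : ℕ) (q : List Bool) : ((prog e q).takeWhile (fun b => b)).length = e := by
  unfold prog
  induction e with
  | zero => simp
  | succ n ih => simp only [List.replicate_succ, List.cons_append, List.takeWhile_cons_of_pos,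
      List.length_cons, ih]

theorem prog_drop (e : ℕ) (q : List Bool) : (prog e q).dropWhile (fun b => b) = false :: q := by
  unfold prog
  induction e with
  | zero => simp
  | succ n ih => simp only [List.replicate_succ, List.cons_append, List.dropWhile_cons_of_pos, ih]

theorem exists_prog (p : List Bool) (h : (p.dropWhile (fun b => b)) ≠ []) :
    ∃ e q, p = prog e q := by
  induction p with
  | nil => simp at h
  | cons b p ih =>
    cases b with
    | false => exact ⟨0, p, rfl⟩
    | true =>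
      rw [List.dropWhile_cons_of_pos (by rfl)] at h
      obtain ⟨e, q, rfl⟩ := ih h
      exact ⟨e + 1, q, by simp [prog, List.replicate_succ]⟩

theorem prog_append (e : ℕ) (q t : List Bool) : prog e q ++ t = prog e (q ++ t) := by
  simp [prog]

theorem prog_inj {e e' : ℕ} {q q' : List Bool} (h : prog e q = prog e' q') : e = e' ∧ q = q' := by
  have h1 := prog_take e q
  rw [h, prog_take] at h1
  have h2 := prog_drop e q
  rw [h, prog_drop] at h2
  exact ⟨h1.symm, (List.cons.inj h2).2.symm⟩

theorem outP_prog (e s : ℕ) (q : List Bool) : outP EU EV EP (prog e q) s =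
    (((run EU EV EP e s).2.filter
      (fun st => decide (pv e st.1 + prho e st.2.2.1 = q.length)))[
      num q / 2 ^ (pS e * (q.length / pS e))]?).map
    (fun st => X st.1 st.2.1 (num q % 2 ^ (pS e * (q.length / pS e)))) := by
  unfold outP
  rw [prog_drop, prog_take, if_neg (List.cons_ne_nil _ _)]
  rfl

theorem outK_prog (e s : ℕ) (q : List Bool) : outK EU EV EP (prog e q) s =
    (((run EU EV EP e s).2.filter
      (fun st => decide (q.length = (pB e - st.2.1) + pv e st.1 ∧ st.2.1 ≤ pB e ∧
        num q / 2 ^ pv e st.1 = st.2.2.2 / 2 ^ st.2.1 + 1)))[0]?).map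
    (fun st => X st.1 st.2.1 (num q % 2 ^ pv e st.1)) := by
  unfold outK
  rw [prog_drop, prog_take, if_neg (List.cons_ne_nil _ _)]
  rfl

theorem filter_getElem_mono {α : Type} {l l' : List α} (h : l <+: l') (f : α → Bool) (r : ℕ) (a : α)
    (ha : (l.filter f)[r]? = some a) : (l'.filter f)[r]? = some a := by
  obtain ⟨t, rfl⟩ := h
  rw [List.filter_append]
  have hr : r < (l.filter f).length := by
    by_contra hcon
    rw [List.getElem?_eq_none (not_lt.mp hcon)] at ha
    simp at ha
  rw [List.getElem?_append_left hr]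
  exact ha

theorem outP_mono {p : List Bool} {s s' : ℕ} {x : List Bool} (h : s ≤ s')
    (hx : outP EU EV EP p s = some x) : outP EU EV EP p s' = some x := by
  by_cases hp : (p.dropWhile (fun b => b)) = []
  · unfold outP at hx; simp [hp] at hx
  · obtain ⟨e, q, rfl⟩ := exists_prog p hp
    rw [outP_prog] at hx ⊢
    rw [Option.map_eq_some_iff] at hx ⊢
    obtain ⟨st, h1, h2⟩ := hx
    exact ⟨st, filter_getElem_mono (runG_ext h) _ _ _ h1, h2⟩

theorem outK_mono {p : List Bool} {s s' : ℕ} {x : List Bool} (h : s ≤ s')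
    (hx : outK EU EV EP p s = some x) : outK EU EV EP p s' = some x := by
  by_cases hp : (p.dropWhile (fun b => b)) = []
  · unfold outK at hx; simp [hp] at hx
  · obtain ⟨e, q, rfl⟩ := exists_prog p hp
    rw [outK_prog] at hx ⊢
    rw [Option.map_eq_some_iff] at hx ⊢
    obtain ⟨st, h1, h2⟩ := hx
    exact ⟨st, filter_getElem_mono (runG_ext h) _ _ _ h1, h2⟩

variable (EU EV EP)

noncomputable def MP (p : List Bool) : Part (List Bool) := Nat.rfindOpt (outP EU EV EP p)
noncomputable def MK (p : List Bool) : Part (List Bool) := Nat.rfindOpt (outK EU EV EP p)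

variable {EU EV EP}

theorem mem_MP {p x : List Bool} : x ∈ MP EU EV EP p ↔ ∃ s, outP EU EV EP p s = some x :=
  Nat.rfindOpt_mono (fun h hx => outP_mono h hx)

theorem mem_MK {p x : List Bool} : x ∈ MK EU EV EP p ↔ ∃ s, outK EU EV EP p s = some x :=
  Nat.rfindOpt_mono (fun h hx => outK_mono h hx)

theorem partrec_MP (hU : Primrec₂ EU) (hV : Primrec₂ EV) (hP : Primrec₂ EP) :
    Partrec (MP EU EV EP) := Partrec.rfindOpt (p_outP hU hV hP).to_comp

theorem partrec_MK (hU : Primrec₂ EU) (hV : Primrec₂ EV) (hP : Primrec₂ EP) :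
    Partrec (MK EU EV EP) := Partrec.rfindOpt (p_outK hU hV hP).to_comp

theorem chk_next {e s : ℕ} {st st' : St} (h : chk EU EV EP e s st = some st') :
    st' = lowNext st ∨ st' = highNext e st := by
  unfold chk at h
  split_ifs at h with h1 h2
  · left; exact (Option.some.inj h).symm
  · right; exact (Option.some.inj h).symm

theorem run_pos (e s : ℕ) : (run EU EV EP e s).2.Pairwise Pos :=
  runG_pairwise Pos.trans (fun _ _ _ h => Pos.of_next (chk_next h)) s

theorem pw_or {α : Type} {R : α → α → Prop} (hr : ∀ x, R x x) (l : List α) (h : l.Pairwise R) :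
    ∀ a ∈ l, ∀ b ∈ l, R a b ∨ R b a := by
  induction l with
  | nil => intro a ha; simp at ha
  | cons c l ih =>
    rw [List.pairwise_cons] at h
    intro a ha b hb
    rcases List.mem_cons.mp ha with ha1 | ha1
    · rcases List.mem_cons.mp hb with hb1 | hb1
      · left; rw [ha1, hb1]; exact hr _
      · left; rw [ha1]; exact h.1 b hb1
    · rcases List.mem_cons.mp hb with hb1 | hb1
      · right; rw [hb1]; exact h.1 a ha1
      · exact ih h.2 a ha1 b hb1

theorem run_pos' {e s : ℕ} {a b : St} (ha : a ∈ (run EU EV EP e s).2)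
    (hb : b ∈ (run EU EV EP e s).2) : Pos a b ∨ Pos b a :=
  pw_or (R := Pos) (fun _ => Or.inl ⟨rfl, rfl, rfl⟩) _ (run_pos e s) a ha b hb

theorem MK_sd (p p' : List Bool) (hp : (MK EU EV EP p).Dom) (hp' : (MK EU EV EP p').Dom)
    (h : p <+: p') : p = p' := by
  obtain ⟨x, hx⟩ := Part.dom_iff_mem.mp hp
  obtain ⟨x', hx'⟩ := Part.dom_iff_mem.mp hp'
  obtain ⟨s, hs⟩ := mem_MK.mp hx
  obtain ⟨s', hs'⟩ := mem_MK.mp hx'
  have hs1 := outK_mono (le_max_left s s') hs
  have hs2 := outK_mono (le_max_right s s') hs'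
  set S := max s s'
  have hd : (p.dropWhile (fun b => b)) ≠ [] := by
    intro h0; unfold outK at hs1; simp [h0] at hs1
  obtain ⟨e, q, rfl⟩ := exists_prog p hd
  obtain ⟨t, rfl⟩ := h
  rw [prog_append] at hs2 ⊢
  rw [outK_prog, Option.map_eq_some_iff] at hs1 hs2
  obtain ⟨a, ha, -⟩ := hs1
  obtain ⟨b, hb, -⟩ := hs2
  have ha' := List.mem_of_getElem? ha
  have hb' := List.mem_of_getElem? hb
  rw [List.mem_filter, decide_eq_true_eq] at ha' hb'
  have := match_unique (e := e) (s := a) (s' := b) (q := q) (t := t) ha'.2 hb'.2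
    (run_pos' ha'.1 hb'.1)
  rw [this.2.2, List.append_nil]

end machines

end PartF

section PartG

theorem cnt_eq (EU EV : ℕ → List Bool → Option (List Bool)) (EP : ℕ → (List Bool × ℕ) × ℕ → Bool)
    (L : ℕ) (t : (ℕ × St) × (ℕ × ℕ × ℕ)) :
    ∃ A : Finset ℕ, cnt EU EV EP L t = A.card ∧ ∀ a, a ∈ A ↔ a < L ∧ WitA EU EV EP a t := by
  classical
  refine ⟨(Finset.range L).filter (fun a => WitA EU EV EP a t), ?_, ?_⟩
  · unfold cnt
    rw [Finset.card_def, Finset.filter_val, Finset.range_val]
    rfl
  · intro a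
    rw [Finset.mem_filter, Finset.mem_range]

section
variable {U V : List Bool →. List Bool} {Ψ : (List Bool × ℕ) × ℕ → Prop}
variable {EU EV : ℕ → List Bool → Option (List Bool)} {EP : ℕ → (List Bool × ℕ) × ℕ → Bool}

theorem chk_tr (hEU : ∀ a b s, EU s a = some b → b ∈ U a) (hEV : ∀ a b s, EV s a = some b → b ∈ V a)
    (hEP : ∀ t s, EP s t = true → Ψ t) {e s : ℕ} {st st' : St}
    (h : chk EU EV EP e s st = some st') : Tr U V Ψ e st st' := by
  unfold chk at h
  split_ifs at h with h1 h2
  · left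
    refine ⟨?_, (Option.some.inj h).symm⟩
    obtain ⟨A, hA1, hA2⟩ := cnt_eq EU EV EP (2 ^ pv e st.1)
      ((s, st), (pk e st.1 st.2.1, 0, pv e st.1 + (pL e st.2.2.1 - pg e)))
    refine ⟨A, ?_, by rw [← hA1]; exact h1, ?_⟩
    · intro a ha
      exact Finset.mem_range.mpr ((hA2 a).1 ha).1
    · intro a ha
      obtain ⟨p, _, q, _, b1, b2, b3, b4, b5, b6⟩ := ((hA2 a).1 ha).2
      exact ⟨p, hEU _ _ _ b1, b6⟩
  · right
    refine ⟨?_, (Option.some.inj h).symm⟩
    obtain ⟨A, hA1, hA2⟩ := cnt_eq EU EV EP (2 ^ pv e st.1)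
      ((s, st), (pk e st.1 st.2.1, pv e st.1 + (pL e st.2.2.1 - pg e) + 1,
        pv e st.1 + pL e st.2.2.1))
    refine ⟨A, ?_, by rw [← hA1]; exact h2, ?_⟩
    · intro a ha
      exact Finset.mem_range.mpr ((hA2 a).1 ha).1
    · intro a ha
      obtain ⟨p, _, q, _, b1, b2, b3, b4, b5, b6⟩ := ((hA2 a).1 ha).2
      exact ⟨p, q, hEU _ _ _ b1, hEV _ _ _ b2, hEP _ _ b3, b4, b5, b6⟩

/-- the plain machine describes the strings of the current item -/
theorem exists_plain {e s : ℕ} {l : List St} {st : St} (hl : (run EU EV EP e s).2 = l ++ [st])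
    (hR : st.2.2.1 ≤ pR e)
    (hrank : (l.filter (fun s => decide (pv e s.1 + prho e s.2.2.1 =
      pv e st.1 + prho e st.2.2.1))).length < 2 ^ prho e st.2.2.1)
    {a : ℕ} (ha : a < 2 ^ pv e st.1) :
    ∃ p, X st.1 st.2.1 a ∈ MP EU EV EP p ∧ p.length = e + 1 + (pv e st.1 + prho e st.2.2.1) := by
  set r := (l.filter (fun s => decide (pv e s.1 + prho e s.2.2.1 =
      pv e st.1 + prho e st.2.2.1))).length with hr
  obtain ⟨q, hq1, hq2⟩ := exists_num (m := pv e st.1 + prho e st.2.2.1)
    (N := r * 2 ^ pv e st.1 + a) (by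
      rw [pow_add, mul_comm (2 ^ pv e st.1)]
      calc r * 2 ^ pv e st.1 + a < r * 2 ^ pv e st.1 + 2 ^ pv e st.1 := by omega
        _ = (r + 1) * 2 ^ pv e st.1 := by ring
        _ ≤ 2 ^ prho e st.2.2.1 * 2 ^ pv e st.1 := Nat.mul_le_mul_right _ hrank)
  refine ⟨prog e q, ?_, by rw [prog_length, hq1]⟩
  rw [mem_MP]
  refine ⟨s, ?_⟩
  have hS := pS_pos e
  have hdiv : pS e * (q.length / pS e) = pv e st.1 := by
    rw [hq1]
    have : (pv e st.1 + prho e st.2.2.1) / pS e = st.1 + 1 := by
      unfold pv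
      rw [Nat.add_comm, Nat.add_mul_div_right _ _ hS, Nat.div_eq_of_lt (prho_lt hR), zero_add]
    rw [this, pv]; ring
  rw [outP_prog, hl, hdiv, List.filter_append, hq1, hq2]
  have h1 : (r * 2 ^ pv e st.1 + a) / 2 ^ pv e st.1 = r := by
    rw [Nat.add_comm, Nat.add_mul_div_right _ _ (by positivity), Nat.div_eq_of_lt ha, zero_add]
  have h2 : (r * 2 ^ pv e st.1 + a) % 2 ^ pv e st.1 = a := by
    rw [Nat.add_comm, Nat.add_mul_mod_self_right, Nat.mod_eq_of_lt ha]
  rw [h1, h2, List.getElem?_append_right (by rw [hr]), hr, Nat.sub_self]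
  simp

/-- the self-delimiting machine describes the strings of the current item -/
theorem exists_pf {e s : ℕ} {st : St} (hst : st ∈ (run EU EV EP e s).2)
    (h1 : st.2.2.2 + 2 ^ (st.2.1 + 1) ≤ 2 ^ pB e) (h2 : st.2.1 ≤ pB e)
    {a : ℕ} (ha : a < 2 ^ pv e st.1) :
    ∃ p, X st.1 st.2.1 a ∈ MK EU EV EP p ∧
      p.length = e + 1 + ((pB e - st.2.1) + pv e st.1) := by
  obtain ⟨q, hq1, hq2⟩ := exists_match h1 h2 ha
  refine ⟨prog e q, ?_, by rw [prog_length, hq1.1]⟩
  rw [mem_MK]
  refine ⟨s, ?_⟩
  rw [outK_prog, Option.map_eq_some_iff]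
  set f := (run EU EV EP e s).2.filter
      (fun st => decide (q.length = (pB e - st.2.1) + pv e st.1 ∧ st.2.1 ≤ pB e ∧
        num q / 2 ^ pv e st.1 = st.2.2.2 / 2 ^ st.2.1 + 1)) with hf
  have hmem : st ∈ f := by
    rw [hf, List.mem_filter, decide_eq_true_eq]
    exact ⟨hst, hq1⟩
  have hpos : 0 < f.length := List.length_pos_of_mem hmem
  refine ⟨f[0], List.getElem?_eq_getElem hpos, ?_⟩
  have h0 : f[0] ∈ f := List.getElem_mem hpos
  have h0' : f[0] ∈ (run EU EV EP e s).2 ∧ MatchK e f[0] q := by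
    have h3 := List.mem_filter.mp h0
    have h4 := h3.2
    rw [decide_eq_true_eq] at h4
    exact ⟨h3.1, h4⟩
  have hu := match_unique (e := e) (s := f[0]) (s' := st) (q := q) (t := []) h0'.2
    (by rw [List.append_nil]; exact hq1) (run_pos' h0'.1 hst)
  rw [hu.1, hu.2.1, hq2]

end

/-- **Main theorem.** No r.e. relation with bounded fibres contains all `((x, K x), C x)`. -/
theorem main_theorem (U V : List Bool →. List Bool) (Ψ : (List Bool × ℕ) × ℕ → Prop)
    (hU : Partrec U)
    (hUopt : ∀ M : List Bool →. List Bool, Partrec M →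
        ∃ c : ℕ, ∀ (x p : List Bool), x ∈ M p →
          ∃ q : List Bool, x ∈ U q ∧ q.length ≤ p.length + c)
    (hV : Partrec V)
    (hVpf : ∀ p q : List Bool, (V p).Dom → (V q).Dom → p <+: q → p = q)
    (hVopt : ∀ M : List Bool →. List Bool, Partrec M →
        (∀ p q : List Bool, (M p).Dom → (M q).Dom → p <+: q → p = q) →
        ∃ c : ℕ, ∀ (x p : List Bool), x ∈ M p →
          ∃ q : List Bool, x ∈ V q ∧ q.length ≤ p.length + c)
    (EP : ℕ → (List Bool × ℕ) × ℕ → Bool) (hEP : Primrec₂ EP)
    (hEPΨ : ∀ t, Ψ t ↔ ∃ s, EP s t = true)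
    (hEPmono : ∀ s s' t, s ≤ s' → EP s t = true → EP s' t = true)
    (m : ℕ) (hm : ∀ x k, ∀ F : Finset ℕ, (∀ y ∈ F, Ψ ((x, k), y)) → F.card ≤ m) :
    ∃ x : List Bool, ¬ Ψ ((x, sInf (List.length '' {p : List Bool | x ∈ V p})),
      sInf (List.length '' {p : List Bool | x ∈ U p})) := by
  classical
  by_contra hcon
  push Not at hcon
  obtain ⟨EU, pEU, hEU, hEUm⟩ := exists_enum hU
  obtain ⟨EV, pEV, hEV, hEVm⟩ := exists_enum hV
  obtain ⟨c1, hc1⟩ := hUopt _ (partrec_MP pEU pEV hEP)
  obtain ⟨c2, hc2⟩ := hVopt _ (partrec_MK pEU pEV hEP) MK_sd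
  set e := max m (max c1 c2) with he
  have hme : m ≤ e := le_max_left _ _
  have hc1e : c1 ≤ e := (le_max_left c1 c2).trans (le_max_right _ _)
  have hc2e : c2 ≤ e := (le_max_right c1 c2).trans (le_max_right _ _)
  have htr : ∀ s st st', chk EU EV EP e s st = some st' → Tr U V Ψ e st st' :=
    fun s st st' h => chk_tr (fun a b s h => (hEU a b).2 ⟨s, h⟩) (fun a b s h => (hEV a b).2 ⟨s, h⟩)
      (fun t s h => (hEPΨ t).2 ⟨s, h⟩) h
  have hord : ∀ s, (run EU EV EP e s).2.Pairwise (Ord U e) := fun s =>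
    runG_pairwise Ord.trans (fun _ _ _ h => Ord.of_tr (htr _ _ _ h)) s
  have hinv : ∀ s, ∀ st ∈ (run EU EV EP e s).2, Inv U V Ψ e st := fun s =>
    runG_inv (Inv.init e) (fun _ _ _ hi h => hi.step (htr _ _ _ h)) s
  have hbound : ∀ s, (run EU EV EP e s).2.length ≤
      ((2 ^ pB e + 1) * (2 ^ pS e + 1)) * (pR e + 1) := fun s =>
    length_bound hme hm hVpf _ (hord s) (hinv s)
  obtain ⟨s, hs⟩ := runG_unbounded (chk := chk EU EV EP e) (by
    intro s
    obtain ⟨l, hl⟩ := runG_last (chk := chk EU EV EP e) s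
    set st := (runG (chk EU EV EP e) s).1 with hst
    have hl' : (run EU EV EP e s).2 = l ++ [st] := hl
    have hmem : st ∈ (run EU EV EP e s).2 := by rw [hl']; simp
    have hI := hinv s st hmem
    have hj := hI.j_le
    have hR := hI.1
    obtain ⟨-, hpos⟩ := hI.bounds hme hm hVpf
    have hrank := rank_bound l st (by rw [← hl']; exact hord s) (by rw [← hl']; exact hinv s)
    have hjB : st.2.1 ≤ pB e := by
      have : st.2.1 ≤ 2 ^ pS e := hj
      unfold pB; omega
    -- every string of the item gets a stable witness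
    have key : ∀ a, a < 2 ^ pv e st.1 → ∃ s0, ∀ s' ≥ s0,
        WitA EU EV EP a ((s', st), (pk e st.1 st.2.1, 0, pv e st.1 + (pL e st.2.2.1 - pg e))) ∨
        WitA EU EV EP a ((s', st), (pk e st.1 st.2.1, pv e st.1 + (pL e st.2.2.1 - pg e) + 1,
          pv e st.1 + pL e st.2.2.1)) := by
      intro a ha
      obtain ⟨p1, hp1, hp1l⟩ := exists_plain hl' hR hrank ha
      obtain ⟨p2, hp2, hp2l⟩ := exists_pf hmem hpos hjB ha
      set x := X st.1 st.2.1 a with hx
      obtain ⟨q1, hq1, hq1l⟩ := hc1 _ _ hp1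
      obtain ⟨q2, hq2, hq2l⟩ := hc2 _ _ hp2
      have hne1 : (List.length '' {p : List Bool | x ∈ U p}).Nonempty := ⟨_, q1, hq1, rfl⟩
      have hne2 : (List.length '' {p : List Bool | x ∈ V p}).Nonempty := ⟨_, q2, hq2, rfl⟩
      obtain ⟨p, hp, hpl⟩ := Nat.sInf_mem hne1
      obtain ⟨q, hq, hql⟩ := Nat.sInf_mem hne2
      have hC : p.length ≤ q1.length := by rw [hpl]; exact Nat.sInf_le ⟨q1, hq1, rfl⟩
      have hK : q.length ≤ q2.length := by rw [hql]; exact Nat.sInf_le ⟨q2, hq2, rfl⟩
      have hΨ := hcon x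
      rw [← hpl, ← hql] at hΨ
      obtain ⟨t1, ht1⟩ := (hEU p x).1 hp
      obtain ⟨t2, ht2⟩ := (hEV q x).1 hq
      obtain ⟨t3, ht3⟩ := (hEPΨ _).1 hΨ
      have hpE : pE e = 2 * e + 1 := rfl
      have hCle : p.length ≤ pv e st.1 + pL e st.2.2.1 := by
        have := prho_add hR
        omega
      have hKle : q.length ≤ pk e st.1 st.2.1 := by
        unfold pk
        omega
      refine ⟨max (max t1 t2) (max t3 (max (Encodable.encode p + 1) (Encodable.encode q + 1))), ?_⟩
      intro s' hs'
      have g1 : t1 ≤ s' := by omega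
      have g2 : t2 ≤ s' := by omega
      have g3 : t3 ≤ s' := by omega
      have g4 : Encodable.encode p < s' := by omega
      have g5 : Encodable.encode q < s' := by omega
      rcases Nat.lt_or_ge (pv e st.1 + (pL e st.2.2.1 - pg e)) p.length with hlt | hge
      · right
        exact ⟨p, mem_strs p g4, q, mem_strs q g5, hEUm _ _ _ _ g1 ht1, hEVm _ _ _ _ g2 ht2,
          hEPmono _ _ _ g3 ht3, hKle, hlt, hCle⟩
      · left
        exact ⟨p, mem_strs p g4, q, mem_strs q g5, hEUm _ _ _ _ g1 ht1, hEVm _ _ _ _ g2 ht2,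
          hEPmono _ _ _ g3 ht3, hKle, Nat.zero_le _, hge⟩
    choose! s0 hs0 using key
    refine ⟨(Finset.range (2 ^ pv e st.1)).sup s0, ?_⟩
    intro s' hs' hnone
    obtain ⟨A, hA1, hA2⟩ := cnt_eq EU EV EP (2 ^ pv e st.1)
      ((s', st), (pk e st.1 st.2.1, 0, pv e st.1 + (pL e st.2.2.1 - pg e)))
    obtain ⟨B, hB1, hB2⟩ := cnt_eq EU EV EP (2 ^ pv e st.1)
      ((s', st), (pk e st.1 st.2.1, pv e st.1 + (pL e st.2.2.1 - pg e) + 1,
        pv e st.1 + pL e st.2.2.1))
    have hcover : Finset.range (2 ^ pv e st.1) ⊆ A ∪ B := by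
      intro a ha
      have ha' := Finset.mem_range.mp ha
      have hle : s0 a ≤ s' := (Finset.le_sup (f := s0) ha).trans hs'
      rw [Finset.mem_union, hA2, hB2]
      rcases hs0 a ha' s' hle with h | h
      · left; exact ⟨ha', h⟩
      · right; exact ⟨ha', h⟩
    have hcard := (Finset.card_le_card hcover).trans (Finset.card_union_le _ _)
    rw [Finset.card_range, ← hA1, ← hB1] at hcard
    unfold chk at hnone
    split_ifs at hnone with h1 h2
    omega) (((2 ^ pB e + 1) * (2 ^ pS e + 1)) * (pR e + 1) + 1)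
  have := hbound s
  unfold run at this
  omega

end PartG

end Pool.Agent.Helper444.CKGame
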